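import Pool.Agent.Helper97.RQ.PermLin

/-!
# Integer zeros of the permanent outside a hypersurface (MP_381749_lc)
-/

set_option autoImplicit false

namespace Pool.RQ

open MvPolynomial Pool.Agent.Helper24.SQ

/-- Multiply the row `z0` by `A`, except for the entry `(z0, z0)`, which becomes `t`. -/
theorem permanent_row {S : Type*} [CommRing S] {n : ℕ} (z0 : Fin n) (x : Fin n × Fin n → S)
    (A t : S) :
    (Matrix.of fun i j => if i = z0 ∧ j = z0 then t else if i = z0 then A * x (i, j)
      else x (i, j)).permanent =
      t * ((Matrix.of fun i j => Function.update x (z0, z0) 1 (i, j)).permanent -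
        (Matrix.of fun i j => Function.update x (z0, z0) 0 (i, j)).permanent) +
        A * (Matrix.of fun i j => Function.update x (z0, z0) 0 (i, j)).permanent := by
  simp only [Matrix.permanent, Matrix.of_apply]
  rw [← Finset.sum_sub_distrib, Finset.mul_sum, Finset.mul_sum, ← Finset.sum_add_distrib]
  refine Finset.sum_congr rfl fun s _ => ?_
  obtain ⟨i0, hi0⟩ : ∃ i0, s i0 = z0 := s.surjective z0
  have hne : ∀ i ∈ Finset.univ.erase i0, s i ≠ z0 := by
    intro i hi h
    exact (Finset.mem_erase.1 hi).1 (s.injective (h.trans hi0.symm))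
  have k1 : (∏ i, if s i = z0 ∧ i = z0 then t else if s i = z0 then A * x (s i, i)
      else x (s i, i)) = (if i0 = z0 then t else A * x (z0, i0)) *
      ∏ i ∈ Finset.univ.erase i0, x (s i, i) := by
    rw [← Finset.mul_prod_erase _ _ (Finset.mem_univ i0)]
    congr 1
    · rw [hi0]
      simp
    · refine Finset.prod_congr rfl fun i hi => ?_
      rw [if_neg (fun h => hne i hi h.1), if_neg (hne i hi)]
  have k2 : ∀ c : S, ∏ i, Function.update x (z0, z0) c (s i, i) =
      (if i0 = z0 then c else x (z0, i0)) * ∏ i ∈ Finset.univ.erase i0, x (s i, i) := by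
    intro c
    rw [← Finset.mul_prod_erase _ _ (Finset.mem_univ i0)]
    congr 1
    · rw [hi0]
      split_ifs with h
      · rw [h, Function.update_self]
      · rw [Function.update_of_ne]
        intro h'
        exact h (congrArg Prod.snd h')
    · refine Finset.prod_congr rfl fun i hi => ?_
      rw [Function.update_of_ne]
      intro h'
      exact hne i hi (congrArg Prod.fst h')
  rw [k1, k2, k2]
  split_ifs <;> ring

/-- The value of the permanent polynomial at an integer point. -/
theorem eval_perm_int {n : ℕ} (x : Fin n × Fin n → ℤ) :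
    eval (fun q => (x q : ℂ)) (permPoly n) = ((Matrix.of fun i j => x (i, j)).permanent : ℤ) := by
  rw [eval_permPoly]
  simp [Matrix.permanent]

theorem update_cast {n : ℕ} (x : Fin n × Fin n → ℤ) (q : Fin n × Fin n) (c : ℤ) :
    Function.update (fun q => (x q : ℂ)) q (c : ℂ) = fun p => ((Function.update x q c p : ℤ) : ℂ) := by
  funext p
  by_cases h : p = q
  · subst h
    simp
  · rw [Function.update_of_ne h, Function.update_of_ne h]

/-- A nonzero polynomial does not vanish at some integer point. -/
theorem exists_int_pt {σ : Type*} (G : MvPolynomial σ ℂ) (hG : G ≠ 0) :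
    ∃ X : σ → ℤ, eval (fun q => (X q : ℂ)) G ≠ 0 := by
  by_contra hcon
  push Not at hcon
  apply hG
  refine MvPolynomial.funext_set (fun _ => Set.range (fun z : ℤ => (z : ℂ)))
    (fun _ => Set.infinite_range_of_injective Int.cast_injective) fun x hx => ?_
  have h1 : ∀ q, ∃ z : ℤ, (z : ℂ) = x q := fun q => hx q (Set.mem_univ q)
  choose X hX using h1
  rw [map_zero, ← hcon X]
  congr 1
  exact congrArg _ (funext fun q => (hX q).symm)

/-- If the permanent does not divide `G`, there is an integer matrix with permanent `0` at which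
`G` does not vanish. -/
theorem int_pt (n : ℕ) (hn : 1 ≤ n) (G : MvPolynomial (Fin n × Fin n) ℂ)
    (hG : ¬ permPoly n ∣ G) : ∃ X : Matrix (Fin n) (Fin n) ℤ, X.permanent = 0 ∧
      eval (fun q : Fin n × Fin n => (X q.1 q.2 : ℂ)) G ≠ 0 := by
  obtain ⟨z0, hz0⟩ : ∃ z0 : Fin n, z0.1 = 0 := ⟨⟨0, hn⟩, rfl⟩
  obtain ⟨a, b, ha, hb, hP, hae, hbe⟩ := perm_lin n (z0, z0)
  have hprime := perm_prime hn
  obtain ⟨D, R, hR, hdvd⟩ := pseudo (z0, z0) a b ha hb G
  rw [← hP] at hdvd
  -- values of `a`, `b` after the change of the first row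
  let ph : ℂ → (Fin n × Fin n → ℂ) → Fin n × Fin n → ℂ := fun A x q =>
    if q.1 = z0 ∧ q.2 = z0 then 0 else if q.1 = z0 then A * x q else x q
  have hupd : ∀ (A t : ℂ) (x : Fin n × Fin n → ℂ),
      eval (Function.update (ph A x) (z0, z0) t) (permPoly n) =
        t * eval x a + A * eval x b := by
    intro A t x
    rw [hae, hbe, eval_permPoly, eval_permPoly, eval_permPoly, ← permanent_row]
    congr 1
    ext i j
    rw [Matrix.of_apply, Matrix.of_apply]
    by_cases h : i = z0 ∧ j = z0
    · obtain ⟨rfl, rfl⟩ := h
      simp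
    · rw [if_neg h, Function.update_of_ne]
      · simp only [ph]
        rw [if_neg h]
      · intro h'
        exact h ⟨congrArg Prod.fst h', congrArg Prod.snd h'⟩
  have hpa : ∀ (A : ℂ) (x : Fin n × Fin n → ℂ), eval (ph A x) a = eval x a := by
    intro A x
    rw [hae, hupd, hupd]
    ring
  have hpb : ∀ (A : ℂ) (x : Fin n × Fin n → ℂ), eval (ph A x) b = A * eval x b := by
    intro A x
    rw [hbe, hupd]
    ring
  -- `a` and `R` are nonzero polynomials
  have ha0 : a ≠ 0 := by
    intro h
    have h1 := hae (fun q => if q.1 = q.2 then 1 else 0)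
    rw [h, map_zero, eval_permPoly, eval_permPoly] at h1
    have h2 : (Matrix.of fun i j => Function.update
        (fun q : Fin n × Fin n => if q.1 = q.2 then (1 : ℂ) else 0) (z0, z0) 1 (i, j)) = 1 := by
      ext i j
      rw [Matrix.of_apply, Matrix.one_apply]
      by_cases h3 : (i, j) = (z0, z0)
      · rw [h3, Function.update_self]
        simp only [Prod.mk.injEq] at h3
        rw [h3.1, h3.2, if_pos rfl]
      · rw [Function.update_of_ne h3]
    have h4 : (Matrix.of fun i j => Function.update
        (fun q : Fin n × Fin n => if q.1 = q.2 then (1 : ℂ) else 0) (z0, z0) 0 (i, j)).permanent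
        = 0 := by
      refine Finset.sum_eq_zero fun s _ => ?_
      by_cases hs : s z0 = z0
      · refine Finset.prod_eq_zero (Finset.mem_univ z0) ?_
        rw [Matrix.of_apply, hs, Function.update_self]
      · refine Finset.prod_eq_zero (Finset.mem_univ z0) ?_
        rw [Matrix.of_apply, Function.update_of_ne]
        · exact if_neg hs
        · intro h'
          exact hs (congrArg Prod.fst h')
    rw [h2, h4, Matrix.permanent_one] at h1
    norm_num at h1
  have hR0 : R ≠ 0 := by
    intro h
    rw [h, sub_zero] at hdvd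
    rcases hprime.dvd_or_dvd hdvd with h5 | h5
    · have h6 := hprime.dvd_of_dvd_pow h5
      obtain ⟨c, hc⟩ := h6
      -- the permanent would divide `a`, which does not depend on the variable
      have h7 : ∀ x : Fin n × Fin n → ℂ, eval x a = 0 := by
        intro x
        by_contra hx
        have h8 := congrArg (eval (Function.update x (z0, z0) (-(eval x b) / eval x a))) hc
        rw [map_mul, ha, hP, map_add, map_mul, eval_X, ha, hb, Function.update_self] at h8
        rw [div_mul_cancel₀ _ hx] at h8
        apply hx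
        rw [h8]
        ring
      exact ha0 (MvPolynomial.funext fun x => by rw [h7, map_zero])
    · exact hG h5
  -- the polynomial `R` after the substitution
  let sb : Fin n × Fin n → MvPolynomial (Fin n × Fin n) ℂ := fun q =>
    if q.1 = z0 ∧ q.2 = z0 then 0 else if q.1 = z0 then a * X q else X q
  have hsb : ∀ x : Fin n × Fin n → ℂ, eval x (aeval sb R) = eval (ph (eval x a) x) R := by
    intro x
    rw [← MvPolynomial.coe_aeval_eq_eval, ← MvPolynomial.coe_aeval_eq_eval]
    simp only [RingHom.coe_coe]
    rw [← AlgHom.comp_apply, MvPolynomial.comp_aeval]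
    congr 2
    funext q
    simp only [sb, ph]
    split_ifs <;> simp
  have hph : ∀ x : Fin n × Fin n → ℂ, eval x a ≠ 0 →
      eval (ph (eval x a) (ph (eval x a)⁻¹ x)) R = eval x R := by
    intro x hx
    rw [← hR x 0]
    congr 2
    funext q
    simp only [ph]
    by_cases h : q.1 = z0 ∧ q.2 = z0
    · rw [if_pos h]
      have : q = (z0, z0) := Prod.ext h.1 h.2
      rw [this, Function.update_self]
    · rw [if_neg h, Function.update_of_ne]
      · split_ifs
        · field_simp
        · rfl
      · rintro rfl
        exact h ⟨rfl, rfl⟩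
  have hS0 : a * aeval sb R ≠ 0 := by
    refine mul_ne_zero ha0 fun h => ?_
    have h1 : a * R = 0 := by
      apply MvPolynomial.funext
      intro x
      rw [map_mul, map_zero]
      by_cases hx : eval x a = 0
      · rw [hx, zero_mul]
      · have h2 := hsb (ph (eval x a)⁻¹ x)
        rw [h, map_zero, hpa, hph x hx] at h2
        rw [← h2, mul_zero]
    rcases mul_eq_zero.1 h1 with h2 | h2
    · exact ha0 h2
    · exact hR0 h2
  obtain ⟨z, hz⟩ := exists_int_pt _ hS0
  rw [map_mul] at hz
  have hza := left_ne_zero_of_mul hz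
  have hzR := right_ne_zero_of_mul hz
  rw [hsb] at hzR
  -- integer values of `a` and `b`
  obtain ⟨A, hA⟩ : ∃ A : ℤ, eval (fun q => (z q : ℂ)) a = A := by
    refine ⟨(Matrix.of fun i j => Function.update z (z0, z0) 1 (i, j)).permanent -
      (Matrix.of fun i j => Function.update z (z0, z0) 0 (i, j)).permanent, ?_⟩
    rw [hae]
    have h1 := update_cast z (z0, z0) 1
    have h0 := update_cast z (z0, z0) 0
    rw [Int.cast_one] at h1
    rw [Int.cast_zero] at h0
    rw [h1, h0, eval_perm_int, eval_perm_int, Int.cast_sub]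
  obtain ⟨B, hB⟩ : ∃ B : ℤ, eval (fun q => (z q : ℂ)) b = B := by
    refine ⟨(Matrix.of fun i j => Function.update z (z0, z0) 0 (i, j)).permanent, ?_⟩
    rw [hbe]
    have h0 := update_cast z (z0, z0) 0
    rw [Int.cast_zero] at h0
    rw [h0, eval_perm_int]
  rw [hA] at hzR hza
  let Y : Fin n × Fin n → ℤ := fun q =>
    if q.1 = z0 ∧ q.2 = z0 then -B else if q.1 = z0 then A * z q else z q
  have hY : (fun q => (Y q : ℂ)) =
      Function.update (ph A (fun q => (z q : ℂ))) (z0, z0) (-(B : ℂ)) := by
    funext q
    by_cases h : q.1 = z0 ∧ q.2 = z0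
    · have hq : q = (z0, z0) := Prod.ext h.1 h.2
      rw [hq, Function.update_self]
      simp [Y]
    · rw [Function.update_of_ne]
      · simp only [Y, ph]
        rw [if_neg h, if_neg h]
        split_ifs <;> simp
      · rintro rfl
        exact h ⟨rfl, rfl⟩
  refine ⟨Matrix.of fun i j => Y (i, j), ?_, ?_⟩
  · have h1 := eval_perm_int Y
    rw [hY, hupd, hA, hB] at h1
    have h2 : (((Matrix.of fun i j => Y (i, j)).permanent : ℤ) : ℂ) = 0 := by
      rw [← h1]
      ring
    exact_mod_cast h2
  · have h1 : (fun q : Fin n × Fin n => (((Matrix.of fun i j => Y (i, j)) q.1 q.2 : ℤ) : ℂ)) =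
        fun q => (Y q : ℂ) := rfl
    rw [h1]
    intro h2
    obtain ⟨u, hu⟩ := hdvd
    have h3 := congrArg (eval (fun q => (Y q : ℂ))) hu
    have h4 : eval (fun q => (Y q : ℂ)) (permPoly n) = 0 := by
      rw [hY, hupd, hA, hB]
      ring
    rw [map_sub, map_mul, map_mul, h2, h4, mul_zero, zero_mul, zero_sub, neg_eq_zero, hY, hR] at h3
    exact hzR h3

end Pool.RQ
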