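import Pool.Agent.Helper97.RQ.Defs

/-!
ZERO TESTS, row H (helper33): compactness of normalised polynomials of bounded degree, and
persistence of critical points near a limit of a class.
-/

set_option autoImplicit false

namespace Pool.RQ

open Filter Topology Finset MvPolynomial Pool.CD Pool.Agent.Helper24.SQ Pool.Agent.Helper63.N3
  Pool.Agent.Helper63.PC Helper16.N3

theorem finite_degree_le {σ : Type} [Fintype σ] (D : ℕ) :
    {s : σ →₀ ℕ | (s.sum fun _ e => e) ≤ D}.Finite := by
  classical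
  have : {s : σ →₀ ℕ | (s.sum fun _ e => e) ≤ D} ⊆
      ↑(Finset.Iic (Finsupp.equivFunOnFinite.symm fun _ : σ => D)) := by
    intro s hs
    rw [Finset.mem_coe, Finset.mem_Iic]
    intro q
    show s q ≤ D
    refine le_trans ?_ hs
    by_cases hq : q ∈ s.support
    · exact Finset.single_le_sum (f := fun q => s q) (fun _ _ => Nat.zero_le _) hq
    · rw [Finsupp.notMem_support_iff.1 hq]; exact Nat.zero_le _
  exact Set.Finite.subset (Finset.finite_toSet _) this

/-- the monomials of degree at most `D` -/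
noncomputable def mons (σ : Type) [Fintype σ] (D : ℕ) : Finset (σ →₀ ℕ) :=
  (finite_degree_le (σ := σ) D).toFinset

theorem mem_mons {σ : Type} [Fintype σ] {D : ℕ} {Q : MvPolynomial σ ℂ} (hQ : Q.totalDegree ≤ D)
    {k : σ →₀ ℕ} (hk : k ∈ Q.support) : k ∈ mons σ D := by
  rw [mons, Set.Finite.mem_toFinset]
  exact (le_totalDegree hk).trans hQ

theorem expand {σ : Type} [Fintype σ] {D : ℕ} {Q : MvPolynomial σ ℂ} (hQ : Q.totalDegree ≤ D) :
    Q = ∑ k : mons σ D, Q.coeff k • monomial (k : σ →₀ ℕ) (1 : ℂ) := by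
  classical
  rw [Finset.sum_coe_sort (mons σ D) (fun k => Q.coeff k • monomial k (1 : ℂ))]
  conv_lhs => rw [Q.as_sum]
  rw [Finset.sum_subset (s₂ := mons σ D)]
  · refine Finset.sum_congr rfl fun k _ => ?_
    rw [smul_monomial, smul_eq_mul, mul_one]
  · intro k hk
    exact mem_mons hQ hk
  · intro k _ hk
    rw [notMem_support_iff.1 hk, monomial_zero]

/-- compactness of the normalised polynomials of bounded degree -/
theorem compact_norm {σ : Type} [Fintype σ] (D : ℕ) (F : ℕ → MvPolynomial σ ℂ)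
    (hdeg : ∀ N, (F N).totalDegree ≤ D) (h0 : ∀ N, F N ≠ 0) :
    ∃ (c : ℕ → ℂ) (φ : ℕ → ℕ) (G : MvPolynomial σ ℂ), StrictMono φ ∧ G ≠ 0 ∧
      ∀ ε : ℝ, 0 < ε → ∃ N₀, ∀ N, N₀ ≤ N → ∀ s,
        ‖coeff s (c (φ N) • F (φ N)) - coeff s G‖ < ε := by
  classical
  set κ := mons σ D with hκ
  -- coefficient vectors
  let v : ℕ → (κ → ℂ) := fun N k => coeff (k : σ →₀ ℕ) (F N)
  have hv : ∀ N, v N ≠ 0 := by
    intro N hN
    apply h0 N
    rw [expand (hdeg N)]
    refine Finset.sum_eq_zero fun k _ => ?_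
    have := congrFun hN k
    rw [show coeff (k : σ →₀ ℕ) (F N) = 0 from this, zero_smul]
  let c : ℕ → ℂ := fun N => ((‖v N‖⁻¹ : ℝ) : ℂ)
  let w : ℕ → (κ → ℂ) := fun N => c N • v N
  have hw : ∀ N, w N ∈ Metric.sphere (0 : κ → ℂ) 1 := by
    intro N
    rw [mem_sphere_zero_iff_norm]
    simp only [w, c]
    rw [norm_smul, Complex.norm_real, norm_inv, norm_norm,
      inv_mul_cancel₀ (norm_ne_zero_iff.2 (hv N))]
  obtain ⟨a, ha, φ, hφ, hlim⟩ := (isCompact_sphere (0 : κ → ℂ) 1).tendsto_subseq hw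
  refine ⟨c, φ, ∑ k : κ, a k • monomial (k : σ →₀ ℕ) (1 : ℂ), hφ, ?_, ?_⟩
  · intro hG
    have ha0 : a = 0 := by
      funext k
      have h1 := congrArg (coeff (k : σ →₀ ℕ)) hG
      rw [coeff_sum, coeff_zero] at h1
      simp only [coeff_smul, coeff_monomial, smul_eq_mul] at h1
      rw [Finset.sum_eq_single k] at h1
      · simpa using h1
      · intro j _ hj
        rw [if_neg (fun h => hj (Subtype.ext h)), mul_zero]
      · intro h; exact absurd (Finset.mem_univ k) h
    rw [ha0] at ha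
    simp at ha
  · intro ε hε
    rw [Metric.tendsto_atTop] at hlim
    obtain ⟨N₀, hN₀⟩ := hlim ε hε
    refine ⟨N₀, fun N hN s => ?_⟩
    have h1 := hN₀ N hN
    rw [dist_eq_norm] at h1
    by_cases hs : s ∈ κ
    · have h2 : coeff s (c (φ N) • F (φ N)) - coeff s (∑ k : κ, a k • monomial (k : σ →₀ ℕ) (1 : ℂ)) =
          (w (φ N) - a) ⟨s, hs⟩ := by
        rw [coeff_smul, coeff_sum, Pi.sub_apply]
        congr 1
        simp only [coeff_smul, coeff_monomial, smul_eq_mul]
        rw [Finset.sum_eq_single (⟨s, hs⟩ : κ)]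
        · simp
        · intro j _ hj
          rw [if_neg (fun h => hj (Subtype.ext h)), mul_zero]
        · intro h; exact absurd (Finset.mem_univ _) h
      rw [h2]
      exact (norm_le_pi_norm _ _).trans_lt h1
    · have h3 : coeff s (F (φ N)) = 0 := by
        by_contra h
        exact hs (mem_mons (hdeg _) (mem_support_iff.2 h))
      have h4 : coeff s (∑ k : κ, a k • monomial (k : σ →₀ ℕ) (1 : ℂ)) = 0 := by
        rw [coeff_sum]
        refine Finset.sum_eq_zero fun k _ => ?_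
        rw [coeff_smul, coeff_monomial, if_neg (fun h : (k : σ →₀ ℕ) = s => hs (h ▸ k.2)), smul_zero]
      rw [coeff_smul, h3, h4, smul_zero, sub_zero, norm_zero]
      exact hε

/-- critical points persist near a limit of the class -/
theorem crit_near {Cl : Cls} {σ ι : Type} [Fintype σ] [Fintype ι] (H : MvPolynomial σ ℂ)
    (hH : Near Cl H) (f : σ → MvPolynomial (Option ι) ℂ) (hf : ∀ q, (f q).totalDegree ≤ 1)
    (Z : Finset (Option ι → ℂ)) (hZ : ∀ z ∈ Z, CritPt (aeval f H) z) :
    ∃ (P : MvPolynomial (Option ι) ℂ) (Z' : Finset (Option ι → ℂ)), Cl.mem P ∧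
      Z'.card = Z.card ∧ ∀ z ∈ Z', CritPt P z := by
  classical
  set D := max Cl.deg H.totalDegree with hD
  obtain ⟨ε, hε, hpers⟩ := crit_persist (MvPolynomial.aeval f H)
    (fun k : mons σ D => MvPolynomial.aeval f (monomial (k : σ →₀ ℕ) (1 : ℂ))) Z hZ
  obtain ⟨P, hP, hPc⟩ := hH ε hε
  obtain ⟨Z', hZ', hcrit⟩ := hpers (fun k => P.coeff k - H.coeff k) fun k => hPc _
  refine ⟨MvPolynomial.aeval f P, Z', Cl.subst P f hP hf, hZ', fun z hz => ?_⟩
  have h1 : MvPolynomial.aeval f P = MvPolynomial.aeval f H +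
      ∑ k : mons σ D, (P.coeff k - H.coeff k) •
      MvPolynomial.aeval f (monomial (k : σ →₀ ℕ) (1 : ℂ)) := by
    have hPd := expand (D := D) ((Cl.le P hP).trans (le_max_left _ _))
    have hpd := expand (D := D) (Q := H) (le_max_right _ _)
    have e : P = H + ∑ k : mons σ D, (P.coeff k - H.coeff k) •
        monomial (k : σ →₀ ℕ) (1 : ℂ) := by
      simp only [sub_smul]
      rw [Finset.sum_sub_distrib, ← hPd, ← hpd]
      ring
    conv_lhs => rw [e]
    rw [map_add, map_sum]
    simp only [map_smul]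
  rw [h1]
  exact hcrit z hz

end Pool.RQ
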