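import Pool.Agent.Helper97.RQ.Dens
import Pool.Agent.Helper24.SQ.CritPts

/-!
# The permanent is prime and affine in each variable (MP_381749_lc)
-/

set_option autoImplicit false

namespace Pool.RQ

open MvPolynomial Pool.Agent.Helper24.SQ

theorem permPoly_eq (n : ℕ) : permPoly n = Pool.Agent.Helper20.MR.permPoly (Fin n) ℂ := by
  unfold permPoly Pool.Agent.Helper20.MR.permPoly
  rw [Pool.Agent.Helper20.MR.permMl_apply]
  rw [← Matrix.permanent_transpose]
  rfl

theorem perm_prime {n : ℕ} (hn : 1 ≤ n) : Prime (permPoly n) := by
  have : Nonempty (Fin n) := ⟨⟨0, hn⟩⟩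
  rw [permPoly_eq]
  exact Pool.Agent.Helper73.DC.irreducible_permPoly.prime

theorem eval_permPoly {n : ℕ} (x : Fin n × Fin n → ℂ) :
    eval x (permPoly n) = (Matrix.of fun i j => x (i, j)).permanent := by
  unfold permPoly Matrix.permanent
  simp only [map_sum, map_prod, Matrix.of_apply, eval_X]

/-- the permanent is affine in each entry -/
theorem permanent_update {n : ℕ} (x : Fin n × Fin n → ℂ) (q : Fin n × Fin n) (t : ℂ) :
    eval (Function.update x q t) (permPoly n) =
      t * (eval (Function.update x q 1) (permPoly n) - eval (Function.update x q 0) (permPoly n)) +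
        eval (Function.update x q 0) (permPoly n) := by
  simp only [eval_permPoly, Matrix.permanent, Matrix.of_apply]
  rw [← Finset.sum_sub_distrib, Finset.mul_sum, ← Finset.sum_add_distrib]
  refine Finset.sum_congr rfl fun s _ => ?_
  by_cases hs : s q.2 = q.1
  · have key : ∀ t : ℂ, ∏ i, Function.update x q t (s i, i) =
        t * ∏ i ∈ Finset.univ.erase q.2, x (s i, i) := by
      intro t
      rw [← Finset.mul_prod_erase _ _ (Finset.mem_univ q.2)]
      congr 1
      · rw [hs, Prod.mk.eta, Function.update_self]
      · refine Finset.prod_congr rfl fun i hi => ?_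
        rw [Function.update_of_ne]
        intro h
        exact (Finset.mem_erase.1 hi).1 (congrArg Prod.snd h)
    rw [key, key, key]
    ring
  · have key : ∀ t : ℂ, ∏ i, Function.update x q t (s i, i) = ∏ i, x (s i, i) := by
      intro t
      refine Finset.prod_congr rfl fun i hi => ?_
      rw [Function.update_of_ne]
      intro h
      apply hs
      rw [← h]
    rw [key, key, key]
    ring

theorem eval_subst {σ : Type} [DecidableEq σ] (P : MvPolynomial σ ℂ) (q : σ) (c : ℂ) (x : σ → ℂ) :
    eval x (aeval (Function.update X q (C c)) P) = eval (Function.update x q c) P := by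
  rw [← MvPolynomial.coe_aeval_eq_eval, ← MvPolynomial.coe_aeval_eq_eval]
  simp only [RingHom.coe_coe]
  rw [← AlgHom.comp_apply, MvPolynomial.comp_aeval]
  congr 1
  congr 1
  funext i
  by_cases hi : i = q
  · subst hi
    simp
  · rw [Function.update_of_ne hi, Function.update_of_ne hi, aeval_X]

theorem perm_lin (n : ℕ) (q : Fin n × Fin n) : ∃ a b : MvPolynomial (Fin n × Fin n) ℂ,
    Ind q a ∧ Ind q b ∧ permPoly n = X q * a + b ∧
      (∀ x, eval x a = eval (Function.update x q 1) (permPoly n) -
        eval (Function.update x q 0) (permPoly n)) ∧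
      ∀ x, eval x b = eval (Function.update x q 0) (permPoly n) := by
  have hA : ∀ x, eval x (aeval (Function.update X q (C 1)) (permPoly n) -
      aeval (Function.update X q (C 0)) (permPoly n)) =
      eval (Function.update x q 1) (permPoly n) - eval (Function.update x q 0) (permPoly n) := by
    intro x
    rw [map_sub, eval_subst, eval_subst]
  have hB : ∀ x, eval x (aeval (Function.update X q (C 0)) (permPoly n)) =
      eval (Function.update x q 0) (permPoly n) := fun x => eval_subst _ _ _ _
  refine ⟨_, _, ?_, ?_, ?_, hA, hB⟩
  · intro x t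
    rw [hA, hA]
    simp
  · intro x t
    rw [hB, hB]
    simp
  · apply MvPolynomial.funext
    intro x
    rw [map_add, map_mul, hA, hB, eval_X]
    conv_lhs => rw [← Function.update_eq_self q x]
    rw [permanent_update x q (x q)]

end Pool.RQ
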