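import Pool.Agent.Helper24.SQ.Crit

/-!
# Scaled critical points: the hypersurface `p ^ (a + 1) * q + σ * g = 0` for small `σ` (MP_381749_lc)
-/

set_option autoImplicit false

namespace Pool.RQ

open MvPolynomial Pool.Agent.Helper24.SQ

/-- total derivative -/
noncomputable def dd {σ : Type} [Fintype σ] (z v : σ → ℂ) (F : MvPolynomial σ ℂ) : ℂ :=
  ∑ i, eval z (pderiv i F) * v i

section

variable {σ : Type} [Fintype σ] (z v : σ → ℂ)

theorem dd_add (F G : MvPolynomial σ ℂ) : dd z v (F + G) = dd z v F + dd z v G := by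
  unfold dd
  rw [← Finset.sum_add_distrib]
  refine Finset.sum_congr rfl fun i _ => ?_
  rw [map_add, map_add, add_mul]

theorem dd_mul (F G : MvPolynomial σ ℂ) :
    dd z v (F * G) = eval z F * dd z v G + eval z G * dd z v F := by
  unfold dd
  rw [Finset.mul_sum, Finset.mul_sum, ← Finset.sum_add_distrib]
  refine Finset.sum_congr rfl fun i _ => ?_
  rw [Derivation.leibniz, map_add, smul_eq_mul, smul_eq_mul, map_mul, map_mul]
  ring

theorem dd_C (c : ℂ) : dd z v (C c) = 0 := by
  unfold dd
  refine Finset.sum_eq_zero fun i _ => ?_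
  rw [pderiv_C, map_zero, zero_mul]

theorem dd_zero : dd z v (0 : MvPolynomial σ ℂ) = 0 := by
  rw [← C_0, dd_C]

theorem dd_smul (c : ℂ) (F : MvPolynomial σ ℂ) : dd z v (c • F) = c * dd z v F := by
  rw [smul_eq_C_mul, dd_mul, dd_C, eval_C, mul_zero, add_zero]

theorem dd_neg (F : MvPolynomial σ ℂ) : dd z v (-F) = -dd z v F := by
  rw [← neg_one_smul ℂ F, dd_smul]
  ring

theorem dd_X (i : σ) : dd z v (X i) = v i := by
  classical
  unfold dd
  rw [Finset.sum_eq_single i]
  · simp
  · intro j _ hj
    rw [pderiv_X, Pi.single_eq_of_ne hj.symm, map_zero, zero_mul]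
  · intro h
    exact absurd (Finset.mem_univ i) h

theorem dd_pow (F : MvPolynomial σ ℂ) (n : ℕ) :
    dd z v (F ^ n) = n * eval z F ^ (n - 1) * dd z v F := by
  induction n with
  | zero => rw [pow_zero, ← C_1, dd_C]; simp
  | succ n ih =>
    rw [pow_succ, dd_mul, ih, map_pow]
    rcases n with _ | n
    · simp
    · simp only [Nat.add_sub_cancel]
      push_cast
      ring

end

theorem dd_rename {σ τ : Type} [Fintype σ] [Fintype τ] (f : σ → τ) (z v : τ → ℂ)
    (F : MvPolynomial σ ℂ) : dd z v (rename f F) = dd (z ∘ f) (v ∘ f) F := by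
  induction F using MvPolynomial.induction_on with
  | C c => rw [rename_C, dd_C, dd_C]
  | add F G hF hG => rw [map_add, dd_add, dd_add, hF, hG]
  | mul_X F i hF =>
    rw [map_mul, rename_X, dd_mul, dd_mul, dd_X, dd_X, hF, eval_X, eval_X, eval_rename]
    rfl

theorem nonDeg_iff {σ τ : Type} [Fintype σ] (F : τ → MvPolynomial σ ℂ) (z : σ → ℂ) :
    NonDeg F z ↔ (∀ j, eval z (F j) = 0) ∧ ∀ v : σ → ℂ, (∀ j, dd z v (F j) = 0) → v = 0 :=
  Iff.rfl

/-- critical points of a multiple -/
theorem critPt_mul_left {ι : Type} [Fintype ι] {w h : MvPolynomial (Option ι) ℂ}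
    {z : Option ι → ℂ} (hz : CritPt h z) (hw : eval z w ≠ 0) : CritPt (w * h) z := by
  obtain ⟨h1, h2, h3, h4⟩ := hz
  refine ⟨?_, fun v => ?_, ?_, fun u hu => h4 u fun v => ?_⟩
  · rw [map_mul, h1, mul_zero]
  · rw [Derivation.leibniz, map_add, smul_eq_mul, smul_eq_mul, map_mul, map_mul, h1, h2]
    simp
  · rw [Derivation.leibniz, map_add, smul_eq_mul, smul_eq_mul, map_mul, map_mul, h1, zero_mul,
      add_zero]
    exact mul_ne_zero hw h3
  · have h5 := hu v
    have h6 : ∀ v', eval z (pderiv (some v') (pderiv (some v) (w * h))) =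
        eval z w * eval z (pderiv (some v') (pderiv (some v) h)) := by
      intro v'
      rw [Derivation.leibniz, map_add, smul_eq_mul, smul_eq_mul, Derivation.leibniz,
        Derivation.leibniz]
      simp only [smul_eq_mul, map_add, map_mul, h1, h2]
      ring
    simp only [h6, mul_assoc] at h5
    rw [← Finset.mul_sum] at h5
    exact (mul_eq_zero.1 h5).resolve_left hw

/-- the system at `s = 0` -/
noncomputable def sys0 {ι : Type} (p q g : MvPolynomial (Option ι) ℂ) (a : ℕ) :
    Option ι ⊕ Bool → MvPolynomial (Option ι ⊕ Bool) ℂ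
  | Sum.inl none => rename Sum.inl p
  | Sum.inl (some v) => (a + 1 : ℂ) • (X (Sum.inr true) ^ a * (rename Sum.inl q *
      rename Sum.inl (pderiv (some v) p)))
  | Sum.inr true => X (Sum.inr true) ^ (a + 1) * rename Sum.inl q + rename Sum.inl g
  | Sum.inr false => X (Sum.inr false) * X (Sum.inr true) + C (-1)

/-- the terms of order one in `s` -/
noncomputable def sys1 {ι : Type} (q g : MvPolynomial (Option ι) ℂ) (a : ℕ) :
    Option ι ⊕ Bool → MvPolynomial (Option ι ⊕ Bool) ℂ
  | Sum.inl none => -X (Sum.inr true)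
  | Sum.inl (some v) => X (Sum.inr true) ^ (a + 1) * rename Sum.inl (pderiv (some v) q) +
      rename Sum.inl (pderiv (some v) g)
  | Sum.inr true => 0
  | Sum.inr false => 0

theorem sys0_nonDeg {ι : Type} [Fintype ι] (p q g : MvPolynomial (Option ι) ℂ) (a : ℕ)
    (z : Option ι → ℂ) (hp : CritPt p z) (hq : eval z q ≠ 0) (t r : ℂ)
    (ht : t ^ (a + 1) * eval z q + eval z g = 0) (hr : r * t = 1) :
    NonDeg (sys0 p q g a) (Sum.elim z fun b => if b then t else r) := by
  obtain ⟨h1, h2, h3, h4⟩ := hp
  have ht0 : t ≠ 0 := by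
    rintro rfl
    rw [mul_zero] at hr
    exact zero_ne_one hr
  set Z : Option ι ⊕ Bool → ℂ := Sum.elim z fun b => if b then t else r with hZ
  have hZl : Z ∘ Sum.inl = z := rfl
  have hZt : Z (Sum.inr true) = t := rfl
  have hZr : Z (Sum.inr false) = r := rfl
  rw [nonDeg_iff]
  refine ⟨?_, fun v hv => ?_⟩
  · rintro ((_ | v) | (_ | _))
    · simp only [sys0, eval_rename, hZl, h1]
    · simp only [sys0, smul_eval, map_mul, eval_rename, hZl, h2, mul_zero]
    · simp only [sys0, map_add, map_mul, eval_X, eval_C, hZt, hZr, hr]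
      ring
    · simp only [sys0, map_add, map_mul, map_pow, eval_X, eval_rename, hZt, hZl, ht]
  · have e0 := hv (Sum.inl none)
    have e1 := hv (Sum.inr true)
    have e2 := hv (Sum.inr false)
    simp only [sys0, dd_rename, hZl] at e0
    have hn : v (Sum.inl none) = 0 := by
      unfold dd at e0
      rw [Fintype.sum_option, Finset.sum_eq_zero (s := Finset.univ)
        (f := fun i => eval z (pderiv (some i) p) * (v ∘ Sum.inl) (some i))
        (fun i _ => by rw [h2, zero_mul]), add_zero] at e0
      exact (mul_eq_zero.1 e0).resolve_left h3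
    have hs : ∀ i, v (Sum.inl (some i)) = 0 := by
      have h5 := h4 (fun i => v (Sum.inl (some i))) (by
        intro i
        have e3 := hv (Sum.inl (some i))
        simp only [sys0, dd_smul, dd_mul, dd_rename, eval_rename, hZl, h2, map_mul, zero_mul,
          mul_zero, add_zero, map_pow, eval_X, hZt] at e3
        have e4 : dd z (v ∘ Sum.inl) (pderiv (some i) p) = 0 := by
          have h7 : (a + 1 : ℂ) ≠ 0 := by exact_mod_cast Nat.succ_ne_zero a
          exact (((mul_eq_zero.1 e3).resolve_left h7 |> mul_eq_zero.1).resolve_left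
            (pow_ne_zero _ ht0) |> mul_eq_zero.1).resolve_left hq
        unfold dd at e4
        rw [Fintype.sum_option] at e4
        simp only [Function.comp_apply, hn, mul_zero, zero_add] at e4
        exact e4)
      exact fun i => congrFun h5 i
    have hl : v ∘ Sum.inl = 0 := by
      funext o
      rcases o with _ | i
      · exact hn
      · exact hs i
    have hd0 : ∀ F : MvPolynomial (Option ι) ℂ, dd z 0 F = 0 := by
      intro F
      unfold dd
      simp
    simp only [sys0, dd_add, dd_mul, dd_pow, dd_rename, dd_X, hl, hZl, hd0, eval_rename, eval_X,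
      hZt, mul_zero, zero_add, add_zero, Nat.add_sub_cancel] at e1
    have ht' : v (Sum.inr true) = 0 := by
      have h7 : ((a + 1 : ℕ) : ℂ) ≠ 0 := by exact_mod_cast Nat.succ_ne_zero a
      rcases mul_eq_zero.1 e1 with h8 | h8
      · exact absurd h8 hq
      · rcases mul_eq_zero.1 h8 with h9 | h9
        · exact absurd h9 (mul_ne_zero h7 (pow_ne_zero _ ht0))
        · exact h9
    simp only [sys0, dd_add, dd_mul, dd_X, dd_C, eval_X, hZt, hZr, ht', mul_zero, zero_add,
      add_zero] at e2
    have hr' : v (Sum.inr false) = 0 := (mul_eq_zero.1 e2).resolve_left ht0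
    funext o
    rcases o with (_ | i) | (_ | _)
    · exact hn
    · exact hs i
    · exact hr'
    · exact ht'

theorem sys_crit {ι : Type} [Fintype ι] (p q g : MvPolynomial (Option ι) ℂ) (a : ℕ) (s : ℂ)
    (hs : s ≠ 0) (Z : Option ι ⊕ Bool → ℂ)
    (hZ : NonDeg (fun j => sys0 p q g a j + s • sys1 q g a j) Z) :
    CritPt (p ^ (a + 1) * q + C (s ^ (a + 1)) * g) (Z ∘ Sum.inl) ∧
      eval (Z ∘ Sum.inl) p = s * Z (Sum.inr true) ∧ Z (Sum.inr false) * Z (Sum.inr true) = 1 := by
  rw [nonDeg_iff] at hZ
  obtain ⟨hz, hn⟩ := hZ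
  set y : Option ι → ℂ := Z ∘ Sum.inl with hy
  set t : ℂ := Z (Sum.inr true) with ht
  set r : ℂ := Z (Sum.inr false) with hr
  have e0 : eval y p = s * t := by
    have h := hz (Sum.inl none)
    simp only [sys0, sys1, map_add, eval_rename, smul_eval, map_neg, eval_X, ← hy, ← ht] at h
    linear_combination h
  have e1 : t ^ (a + 1) * eval y q + eval y g = 0 := by
    have h := hz (Sum.inr true)
    simp only [sys0, sys1, map_add, map_mul, map_pow, eval_rename, smul_eval, map_zero, eval_X,
      ← hy, ← ht] at h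
    linear_combination h
  have e2 : r * t = 1 := by
    have h := hz (Sum.inr false)
    simp only [sys0, sys1, map_add, map_mul, smul_eval, map_zero, eval_X, eval_C, ← ht, ← hr] at h
    linear_combination h
  have ev : ∀ v, (a + 1 : ℂ) * (t ^ a * (eval y q * eval y (pderiv (some v) p))) +
      s * (t ^ (a + 1) * eval y (pderiv (some v) q) + eval y (pderiv (some v) g)) = 0 := by
    intro v
    have h := hz (Sum.inl (some v))
    simp only [sys0, sys1, map_add, map_mul, map_pow, eval_rename, smul_eval, eval_X,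
      ← hy, ← ht] at h
    exact h
  have ht0 : t ≠ 0 := by
    intro h
    rw [h, mul_zero] at e2
    exact zero_ne_one e2
  refine ⟨?_, e0, e2⟩
  have hder : ∀ v, pderiv (some v) (p ^ (a + 1) * q + C (s ^ (a + 1)) * g) =
      (a + 1 : ℂ) • (p ^ a * (q * pderiv (some v) p)) + p ^ (a + 1) * pderiv (some v) q +
        C (s ^ (a + 1)) * pderiv (some v) g := by
    intro v
    rw [map_add, Derivation.leibniz, Derivation.leibniz, pderiv_C, Derivation.leibniz_pow,
      smul_eq_C_mul]
    simp only [smul_eq_mul, nsmul_eq_mul, Nat.add_sub_cancel, mul_zero, add_zero]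
    push_cast
    rw [map_add, map_natCast, C_1]
    ring
  rw [critPt_iff, nonDeg_iff]
  refine ⟨?_, fun w hw => ?_⟩
  · rintro (_ | v)
    · simp only [critSys, Option.elim_none, map_add, map_mul, map_pow, eval_C, e0]
      linear_combination s ^ (a + 1) * e1
    · simp only [critSys, Option.elim_some]
      rw [hder]
      simp only [map_add, map_mul, map_pow, eval_C, smul_eval, e0]
      linear_combination s ^ a * ev v
  · set α : ℂ := dd y w p / s with hα
    have hp : dd y w p = s * α := by
      rw [hα]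
      field_simp
    set V : Option ι ⊕ Bool → ℂ := Sum.elim w fun b => if b then α else -(r * r * α) with hV
    have hVl : V ∘ Sum.inl = w := rfl
    have hVt : V (Sum.inr true) = α := rfl
    have hVr : V (Sum.inr false) = -(r * r * α) := rfl
    have hV0 : V = 0 := by
      apply hn
      rintro ((_ | v) | (_ | _))
      · simp only [sys0, sys1, dd_add, dd_smul, dd_neg, dd_rename, dd_X, ← hy, hVl, hVt, hp]
        ring
      · have h := hw (some v)
        simp only [critSys, Option.elim_some] at h
        rw [hder] at h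
        simp only [dd_add, dd_smul, dd_mul, dd_pow, dd_C, eval_C,
          map_mul, map_pow, e0, hp, Nat.add_sub_cancel] at h
        simp only [sys0, sys1, dd_add, dd_smul, dd_mul, dd_pow, dd_rename, dd_X, ← hy, hVl, hVt,
          eval_rename, eval_X, map_mul, map_pow, ← ht, Nat.add_sub_cancel]
        have hpow : (a : ℂ) * (s * t) ^ (a - 1) * (s * α) = s ^ a * (a * t ^ (a - 1) * α) := by
          rcases a with _ | a
          · simp
          · simp only [Nat.add_sub_cancel]
            rw [mul_pow]
            ring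
        rw [hpow] at h
        have h5 : s ^ a ≠ 0 := pow_ne_zero _ hs
        apply (mul_eq_zero.1 _).resolve_left h5
        push_cast at h ⊢
        linear_combination h
      · simp only [sys0, sys1, dd_add, dd_smul, dd_mul, dd_X, dd_C, dd_zero, eval_X, hVt, hVr,
          ← ht, ← hr]
        linear_combination -(r * α) * e2
      · have h := hw none
        simp only [critSys, Option.elim_none, dd_add, dd_mul, dd_pow, dd_C, eval_C, map_pow, e0,
          hp, Nat.add_sub_cancel] at h
        simp only [sys0, sys1, dd_add, dd_smul, dd_mul, dd_pow, dd_rename, dd_X, dd_zero, ← hy,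
          hVl, hVt, eval_rename, eval_X, map_pow, ← ht, Nat.add_sub_cancel]
        have h5 : s ^ (a + 1) ≠ 0 := pow_ne_zero _ hs
        apply (mul_eq_zero.1 _).resolve_left h5
        push_cast at h ⊢
        linear_combination h
    funext o
    exact congrFun hV0 (Sum.inl o)

/-- **Scaled critical points.** -/
theorem scaled {ι : Type} [Fintype ι] (p q g : MvPolynomial (Option ι) ℂ) (a b : ℕ)
    (Z : Finset (Option ι → ℂ)) (hZ : ∀ z ∈ Z, CritPt p z) (hq : ∀ z ∈ Z, eval z q ≠ 0)
    (hg : ∀ z ∈ Z, eval z g ≠ 0) : ∃ (σ : ℂ) (Z' : Finset (Option ι → ℂ)), Z'.card = Z.card ∧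
      ∀ z ∈ Z', CritPt (p ^ b * (p ^ (a + 1) * q + C σ * g)) z := by
  classical
  have hroot : ∀ z : Option ι → ℂ, ∃ t : ℂ, t ^ (a + 1) = -(eval z g) / eval z q := fun z =>
    IsAlgClosed.exists_pow_nat_eq _ (Nat.succ_pos a)
  choose t ht using hroot
  have hpt : ∀ z ∈ Z, NonDeg (sys0 p q g a)
      (Sum.elim z fun b => if b then t z else (t z)⁻¹) := by
    intro z hz
    have h1 : t z ^ (a + 1) * eval z q + eval z g = 0 := by
      rw [ht, div_mul_cancel₀ _ (hq z hz)]
      ring
    have h2 : t z ≠ 0 := by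
      intro h
      rw [h, zero_pow (Nat.succ_ne_zero a), zero_mul, zero_add] at h1
      exact hg z hz h1
    exact sys0_nonDeg p q g a z (hZ z hz) (hq z hz) (t z) _ h1 (inv_mul_cancel₀ h2)
  obtain ⟨ε, hε, H⟩ := persist (κ := Unit) rfl (sys0 p q g a) (fun _ => sys1 q g a)
    (Z.image fun z => (Sum.elim z fun b => if b then t z else (t z)⁻¹ : Option ι ⊕ Bool → ℂ)) (by
      intro x hx
      obtain ⟨z, hz, rfl⟩ := Finset.mem_image.1 hx
      exact hpt z hz)
  have hcard : (Z.image fun z => (Sum.elim z fun b => if b then t z else (t z)⁻¹ :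
      Option ι ⊕ Bool → ℂ)).card = Z.card := by
    refine Finset.card_image_of_injective _ fun z z' h => ?_
    funext o
    exact congrFun h (Sum.inl o)
  obtain ⟨s, hs0, hs⟩ : ∃ s : ℂ, s ≠ 0 ∧ ‖s‖ < ε := by
    refine ⟨(ε / 2 : ℝ), ?_, ?_⟩
    · exact_mod_cast (half_pos hε).ne'
    · rw [Complex.norm_real, Real.norm_eq_abs, abs_of_pos (half_pos hε)]
      exact half_lt_self hε
  obtain ⟨Z₁, hZ₁, hN⟩ := H (fun _ => s) fun _ => hs
  have hN' : ∀ z ∈ Z₁, NonDeg (fun j => sys0 p q g a j + s • sys1 q g a j) z := by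
    intro z hz
    have h := hN z hz
    simpa using h
  refine ⟨s ^ (a + 1), Z₁.image fun z => z ∘ Sum.inl, ?_, ?_⟩
  · rw [Finset.card_image_of_injOn, hZ₁, hcard]
    intro z hz z' hz' h
    obtain ⟨_, h1, h2⟩ := sys_crit p q g a s hs0 z (hN' z hz)
    obtain ⟨_, h1', h2'⟩ := sys_crit p q g a s hs0 z' (hN' z' hz')
    have h' : z ∘ Sum.inl = z' ∘ Sum.inl := h
    have ht : z (Sum.inr true) = z' (Sum.inr true) := by
      rw [h'] at h1
      exact mul_left_cancel₀ hs0 (h1.symm.trans h1')
    have ht0 : z (Sum.inr true) ≠ 0 := by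
      intro h3
      rw [h3, mul_zero] at h2
      exact zero_ne_one h2
    have hr : z (Sum.inr false) = z' (Sum.inr false) := by
      rw [← ht] at h2'
      exact mul_right_cancel₀ ht0 (h2.trans h2'.symm)
    funext o
    rcases o with o | (_ | _)
    · exact congrFun h' o
    · exact hr
    · exact ht
  · intro y hy
    obtain ⟨z, hz, rfl⟩ := Finset.mem_image.1 hy
    obtain ⟨h0, h1, h2⟩ := sys_crit p q g a s hs0 z (hN' z hz)
    refine critPt_mul_left h0 ?_
    rw [map_pow, h1]
    refine pow_ne_zero _ (mul_ne_zero hs0 ?_)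
    intro h3
    rw [h3, mul_zero] at h2
    exact zero_ne_one h2

end Pool.RQ
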