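import Pool.Agent.Helper97.RQ.Gen
import Pool.Agent.Helper97.RQ.Chain
import Pool.Agent.Helper97.RQ.Compact
import Pool.Agent.Helper97.RQ.PermLin
import Pool.Agent.Helper97.RQ.Scale
import Pool.Agent.Helper97.CD.PNum

/-!
# Nonzero multiples of the permanent which are limits of Pfaffians (MP_381749_lc)
-/

set_option autoImplicit false

namespace Pool.RQ

open MvPolynomial Pool.Agent.Helper24.SQ Pool.CD

/-- the class of affine specialisations of the permanent -/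
noncomputable def PermCls (n : ℕ) : Cls where
  mem := fun {σ} P => ∃ f : Fin n × Fin n → MvPolynomial σ ℂ,
    (∀ q, (f q).totalDegree ≤ 1) ∧ P = aeval f (permPoly n)
  deg := n
  subst := by
    rintro σ τ P g ⟨f, hf, rfl⟩ hg
    refine ⟨fun q => aeval g (f q), fun q => ?_, ?_⟩
    · have h1 := Pool.SDD.totalDegree_aeval_le_mul g 1 hg (f q)
      rw [mul_one] at h1
      exact h1.trans (hf q)
    · rw [← AlgHom.comp_apply, MvPolynomial.comp_aeval]
  le := by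
    rintro σ P ⟨f, hf, rfl⟩
    have h1 := Pool.SDD.totalDegree_aeval_le_mul f 1 hf (permPoly n)
    rw [mul_one] at h1
    exact h1.trans (permPoly_totalDegree_le n)

theorem permCls_br (n : ℕ) : BR (PermCls n) n := by
  intro ε hε
  refine ⟨permPoly n, ⟨X, fun q => ?_, ?_⟩, fun s => ?_⟩
  · exact (totalDegree_X q).le
  · rw [aeval_X_left, AlgHom.id_apply]
  · rw [sub_self, norm_zero]
    exact hε

/-- the counting inequality -/
theorem z_ineq {n j e : ℕ} (hn1 : 1 ≤ n) {G₁ G₂ : MvPolynomial (Fin n × Fin n) ℂ} (h0 : G₁ ≠ 0)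
    (h1 : permPoly n ∣ G₁) (h2 : ¬ permPoly n ∣ G₂)
    (hN : ∀ t : ℂ, Near (PfCls j (e + 1)) (G₁ + t • G₂)) {M d : ℕ} (hM : 2 ≤ M)
    (hMd : M ^ 3 = 2 * d) (hd : 2 ≤ d) (hn : 702 * M ^ 3 ≤ n) :
    (d.factorial : ℝ) ^ (2 * (2 * d - 1)) ≤
      (Real.exp 1 * (4 * (e + 1) * (2 * j : ℕ) / ((2 * d - 1) * (2 * d) + 4 : ℕ) + e)) ^
        ((2 * d - 1) * (2 * d) + 4) := by
  classical
  have hP := perm_prime hn1
  obtain ⟨ι, _, P, Z, hι, ⟨f, hf, rfl⟩, hZc, hZ⟩ := many hM hMd hd hn (permCls_br n)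
  obtain ⟨c₀, rfl⟩ := exists_fc f hf
  -- the multiplicity
  have hfin : FiniteMultiplicity (permPoly n) G₁ :=
    FiniteMultiplicity.of_not_isUnit hP.not_isUnit h0
  obtain ⟨Q, hQ, hPQ⟩ := hfin.exists_eq_pow_mul_and_not_dvd
  obtain ⟨a, ha⟩ : ∃ a, multiplicity (permPoly n) G₁ = a + 1 := by
    refine ⟨multiplicity (permPoly n) G₁ - 1, ?_⟩
    have : 1 ≤ multiplicity (permPoly n) G₁ := by
      by_contra hlt
      have h3 : multiplicity (permPoly n) G₁ = 0 := by omega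
      rw [h3, pow_zero, one_mul] at hQ
      rw [← hQ] at hPQ
      exact hPQ h1
    omega
  rw [ha] at hQ
  have hG : ¬ permPoly n ∣ Q * G₂ := by
    intro h
    rcases hP.dvd_or_dvd h with h3 | h3
    · exact hPQ h3
    · exact h2 h3
  obtain ⟨c, Z₁, hZ₁, hcrit⟩ := generic hP (fun q => by
    obtain ⟨a, b, ha, hb, hab, -, -⟩ := perm_lin n q
    exact ⟨a, b, ha, hb, hab⟩) hG c₀ Z hZ
  obtain ⟨s, Z₂, hZ₂, hcrit₂⟩ := scaled (aeval (fc c) (permPoly n)) (aeval (fc c) Q)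
    (aeval (fc c) G₂) a 0 Z₁ (fun z hz => (hcrit z hz).1) (fun z hz h => (hcrit z hz).2 (by
      rw [map_mul, map_mul, h, zero_mul])) (fun z hz h => (hcrit z hz).2 (by
      rw [map_mul, map_mul, h, mul_zero]))
  have e1 : aeval (fc c) (permPoly n) ^ 0 * (aeval (fc c) (permPoly n) ^ (a + 1) *
      aeval (fc c) Q + C s * aeval (fc c) G₂) = aeval (fc c) (G₁ + s • G₂) := by
    rw [pow_zero, one_mul, map_add, hQ, map_mul, map_pow, map_smul, smul_eq_C_mul]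
  rw [e1] at hcrit₂
  obtain ⟨P, Z₃, hP3, hZ₃, hcrit₃⟩ := crit_near (G₁ + s • G₂) (hN s) (fc c)
    (fun q => fc_totalDegree c q) Z₂ hcrit₂
  have h5 := pf_crit_bound j e P hP3 Z₃ hcrit₃
  rw [hι, hZ₃, hZ₂, hZ₁, hZc, Nat.cast_pow] at h5
  exact h5

/-- **Multiples of the permanent.** -/
theorem multiples : ∃ c : ℝ, 0 < c ∧ ∀ n m δ : ℕ, 1 ≤ δ → (δ : ℝ) ≤ max 1 (c * n) →
    ∀ G : MvPolynomial (Fin n × Fin n) ℂ, G ≠ 0 → permPoly n ∣ G → Lim m δ G →
    c * (n : ℝ) ^ 3 ≤ m * δ := by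
  obtain ⟨c, hc, H⟩ := numericP 702 (by norm_num)
  refine ⟨c, hc, fun n m δ hδ hδn G hG0 hdvd hL => ?_⟩
  obtain ⟨e, rfl⟩ : ∃ e, δ = e + 1 := ⟨δ - 1, by omega⟩
  rcases Nat.eq_zero_or_pos n with h0 | hn
  · subst h0
    have : (0 : ℝ) ≤ (m : ℝ) * ((e + 1 : ℕ) : ℝ) := by positivity
    simpa using this
  have hec : (e : ℝ) ≤ c * n ∨ e = 0 := by
    push_cast at hδn
    rcases le_max_iff.1 hδn with h1 | h1
    · right
      have h2 : (e : ℝ) ≤ 0 := by linarith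
      have h3 : e ≤ 0 := by exact_mod_cast h2
      omega
    · left
      linarith
  obtain ⟨j, hj1, hjm, G₁, G₂, h1, h2, h3, h4⟩ :=
    chain (permPoly n) (perm_prime hn).not_isUnit (e + 1) m G hG0 hdvd hL
  have h5 := H n j e hj1 hec fun M d hM hMd hd hMn => z_ineq hn h1 h2 h3 h4 hM hMd hd hMn
  have h6 : (j : ℝ) * (e + 1) ≤ m * (e + 1) := by
    have : (j : ℝ) ≤ m := by exact_mod_cast hjm
    gcongr
  push_cast
  exact h5.trans h6

end Pool.RQ
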