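import Mathlib

/-!
Row C of the rank queries project (MP_381749_lc): step (1).
Over a commutative domain with well founded divisibility, if a prime `P` divides the nonzero
determinant of `A`, then some entry of the adjugate has a smaller `P`-valuation than the
determinant. Also the determinant of a perturbation of one entry.
-/

set_option autoImplicit false

namespace Pool.RQ

/-- Changing the entry `(j, i)` by `s` changes the determinant by `s` times the entry `(i, j)` of
the adjugate. -/
theorem det_add_single {R : Type*} [CommRing R] {m : ℕ} (A : Matrix (Fin m) (Fin m) R)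
    (i j : Fin m) (s : R) :
    (A + Matrix.single j i s).det = A.det + s * A.adjugate i j := by
  have h1 : A + Matrix.single j i s = A.updateRow j (A j + s • Pi.single i 1) := by
    ext p q
    rcases eq_or_ne p j with rfl | hp
    · rw [Matrix.updateRow_self]
      rcases eq_or_ne q i with rfl | hq
      · simp
      · simp [hq, hq.symm]
    · rw [Matrix.updateRow_ne hp]
      simp [hp.symm]
  rw [h1, Matrix.det_updateRow_add, Matrix.det_updateRow_smul, Matrix.updateRow_eq_self,
    Matrix.adjugate_apply]

/-- Some entry of the adjugate has a smaller valuation at the prime `P` than the determinant. -/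
theorem adj_entry {R : Type*} [CommRing R] [IsDomain R] [WfDvdMonoid R] {P : R} (hP : Prime P)
    {m : ℕ} (A : Matrix (Fin m) (Fin m) R) (h0 : A.det ≠ 0) (hd : P ∣ A.det) :
    ∃ (i j : Fin m) (b a : ℕ) (Q g : R), A.det = P ^ (b + a + 1) * Q ∧ ¬ (P ∣ Q) ∧
      A.adjugate i j = P ^ b * g ∧ ¬ (P ∣ g) := by
  obtain ⟨k, Q, hQ, hk⟩ := WfDvdMonoid.max_power_factor h0 hP.irreducible
  have hex : ∃ i j : Fin m, ¬ (P ^ k ∣ A.adjugate i j) := by
    by_contra hcon
    push Not at hcon
    choose C hC using hcon
    have hadj : A.adjugate = P ^ k • (Matrix.of C) := by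
      ext i j
      rw [Matrix.smul_apply, Matrix.of_apply, smul_eq_mul]
      exact hC i j
    have hmul : A * Matrix.of C = Q • (1 : Matrix (Fin m) (Fin m) R) := by
      have h1 := Matrix.mul_adjugate A
      rw [hadj, Matrix.mul_smul, hk, mul_smul] at h1
      have hpk : P ^ k ≠ 0 := pow_ne_zero k hP.ne_zero
      ext i j
      have h2 := congrFun (congrFun h1 i) j
      rw [Matrix.smul_apply, Matrix.smul_apply, smul_eq_mul, smul_eq_mul] at h2
      exact mul_left_cancel₀ hpk h2
    have hdet := congrArg Matrix.det hmul
    rw [Matrix.det_mul, Matrix.det_smul, Matrix.det_one, mul_one, Fintype.card_fin] at hdet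
    have hdvd : P ∣ Q ^ m := by
      rw [← hdet]
      exact hd.mul_right _
    exact hQ (hP.dvd_of_dvd_pow hdvd)
  obtain ⟨i, j, hij⟩ := hex
  have hne : A.adjugate i j ≠ 0 := by
    intro h
    exact hij (h ▸ dvd_zero _)
  obtain ⟨b, g, hg, hb⟩ := WfDvdMonoid.max_power_factor hne hP.irreducible
  have hbk : b < k := by
    by_contra hcon
    push Not at hcon
    apply hij
    rw [hb]
    exact (pow_dvd_pow P hcon).mul_right g
  refine ⟨i, j, b, k - b - 1, Q, g, ?_, hQ, hb, hg⟩
  have hkk : b + (k - b - 1) + 1 = k := by omega
  rw [hkk]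
  exact hk

end Pool.RQ
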