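import Pool.Agent.Helper97.CD.PfClass

/-!
# Limits of Pfaffians (MP_381749_lc)
-/

set_option autoImplicit false

namespace Pool.RQ

open MvPolynomial Pool.CD Pool.PF

/-- `G` is a (coefficientwise) limit of elements of the class -/
def Near (Cl : Cls) {σ : Type} (G : MvPolynomial σ ℂ) : Prop :=
  ∀ ε : ℝ, 0 < ε → ∃ P : MvPolynomial σ ℂ, Cl.mem P ∧ ∀ s, ‖coeff s P - coeff s G‖ < ε

/-- `G` is a limit of constant multiples of Pfaffians of matrices of size `2 m` with entries of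
degree at most `δ` -/
def Lim (m δ : ℕ) {σ : Type} (G : MvPolynomial σ ℂ) : Prop :=
  ∀ ε : ℝ, 0 < ε → ∃ (P : MvPolynomial σ ℂ) (c : ℂ), PfRep m δ P ∧
    ∀ s, ‖coeff s (c • P) - coeff s G‖ < ε

end Pool.RQ
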