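import Pool.Agent.Helper24.SQ.Crit
import Pool.Agent.Helper73.DC.Irr

/-!
# Density of the complement of `G = 0` on a hypersurface (MP_381749_lc)
-/

set_option autoImplicit false

namespace Pool.RQ

open MvPolynomial Filter Topology Pool.Agent.Helper24.SQ

variable {σ : Type} [DecidableEq σ]

/-- `a` does not depend on the variable `q` -/
def Ind (q : σ) (a : MvPolynomial σ ℂ) : Prop :=
  ∀ (x : σ → ℂ) (t : ℂ), eval (Function.update x q t) a = eval x a

theorem Ind.const (q : σ) (c : ℂ) : Ind q (C c) := by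
  intro x t
  simp

theorem Ind.add {q : σ} {a b : MvPolynomial σ ℂ} (ha : Ind q a) (hb : Ind q b) :
    Ind q (a + b) := by
  intro x t
  rw [map_add, map_add, ha, hb]

theorem Ind.neg {q : σ} {a : MvPolynomial σ ℂ} (ha : Ind q a) : Ind q (-a) := by
  intro x t
  rw [map_neg, map_neg, ha]

theorem Ind.mul {q : σ} {a b : MvPolynomial σ ℂ} (ha : Ind q a) (hb : Ind q b) :
    Ind q (a * b) := by
  intro x t
  rw [map_mul, map_mul, ha, hb]

theorem Ind.pow {q : σ} {a : MvPolynomial σ ℂ} (ha : Ind q a) (n : ℕ) : Ind q (a ^ n) := by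
  intro x t
  rw [map_pow, map_pow, ha]

theorem Ind.var {q j : σ} (h : j ≠ q) : Ind q (X j) := by
  intro x t
  rw [eval_X, eval_X, Function.update_of_ne h]

/-- pseudo-remainder -/
theorem pseudo (q : σ) (a b : MvPolynomial σ ℂ) (ha : Ind q a) (hb : Ind q b)
    (G : MvPolynomial σ ℂ) :
    ∃ (D : ℕ) (R : MvPolynomial σ ℂ), Ind q R ∧ (X q * a + b) ∣ a ^ D * G - R := by
  induction G using MvPolynomial.induction_on with
  | C c => exact ⟨0, C c, Ind.const q c, by simp⟩
  | add G₁ G₂ h1 h2 =>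
    obtain ⟨D₁, R₁, i1, ⟨u, hu⟩⟩ := h1
    obtain ⟨D₂, R₂, i2, ⟨v, hv⟩⟩ := h2
    refine ⟨D₁ + D₂, a ^ D₂ * R₁ + a ^ D₁ * R₂, ((ha.pow _).mul i1).add ((ha.pow _).mul i2),
      ⟨a ^ D₂ * u + a ^ D₁ * v, ?_⟩⟩
    rw [pow_add]
    linear_combination a ^ D₂ * hu + a ^ D₁ * hv
  | mul_X G j h =>
    obtain ⟨D, R, i, ⟨u, hu⟩⟩ := h
    by_cases hj : j = q
    · subst hj
      refine ⟨D + 1, -(R * b), (i.mul hb).neg, ⟨R + u * (X j * a), ?_⟩⟩
      rw [pow_succ]
      linear_combination (a * X j) * hu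
    · refine ⟨D, R * X j, i.mul (Ind.var hj), ⟨u * X j, ?_⟩⟩
      linear_combination X j * hu

theorem zero_of_eventually [Fintype σ] (R : MvPolynomial σ ℂ) (x₀ : σ → ℂ)
    (h : ∀ᶠ x in 𝓝 x₀, eval x R = 0) : R = 0 := by
  obtain ⟨ε, hε, H⟩ := Metric.eventually_nhds_iff.1 h
  refine funext_set (fun i => Metric.ball (x₀ i) ε) (fun i => ?_) fun x hx => ?_
  · exact infinite_of_mem_nhds (x₀ i) (Metric.ball_mem_nhds _ hε)
  · rw [map_zero]
    apply H
    rw [dist_pi_lt_iff hε]
    exact fun i => hx i (Set.mem_univ i)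

/-- near a point of `P = 0` at which the derivative in the direction `q` does not vanish there
are points of `P = 0` with `G ≠ 0` -/
theorem dense [Fintype σ] {P G a b : MvPolynomial σ ℂ} (q : σ) (ha : Ind q a) (hb : Ind q b)
    (hP : P = X q * a + b) (hprime : Prime P) (hG : ¬ P ∣ G) (x₀ : σ → ℂ) (h0 : eval x₀ P = 0)
    (ha0 : eval x₀ a ≠ 0) : ∃ᶠ x in 𝓝 x₀, eval x P = 0 ∧ eval x G ≠ 0 := by
  intro hne
  obtain ⟨D, R, hR, hdvd⟩ := pseudo q a b ha hb G
  rw [← hP] at hdvd
  obtain ⟨u, hu⟩ := hdvd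
  let φ : (σ → ℂ) → (σ → ℂ) := fun x => Function.update x q (-(eval x b) / eval x a)
  have hφ0 : φ x₀ = x₀ := by
    have h1 : x₀ q * eval x₀ a + eval x₀ b = 0 := by
      rw [hP, map_add, map_mul, eval_X] at h0
      exact h0
    have h2 : -(eval x₀ b) / eval x₀ a = x₀ q := by
      rw [div_eq_iff ha0]
      linear_combination -h1
    simp only [φ]
    rw [h2, Function.update_eq_self]
  have hcont : ContinuousAt φ x₀ := by
    have h1 : ContinuousAt (fun x : σ → ℂ => -(eval x b) / eval x a) x₀ :=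
      ((MvPolynomial.continuous_eval b).continuousAt.neg).div
        (MvPolynomial.continuous_eval a).continuousAt ha0
    exact continuousAt_id.update q h1
  have hR0 : R = 0 := by
    refine zero_of_eventually R x₀ ?_
    have e1 : ∀ᶠ x in 𝓝 x₀, ¬ (eval (φ x) P = 0 ∧ eval (φ x) G ≠ 0) := by
      have h2 : Tendsto φ (𝓝 x₀) (𝓝 x₀) := by
        have h3 : Tendsto φ (𝓝 x₀) (𝓝 (φ x₀)) := hcont
        rwa [hφ0] at h3
      exact h2.eventually hne
    have e2 : ∀ᶠ x in 𝓝 x₀, eval x a ≠ 0 :=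
      (MvPolynomial.continuous_eval a).continuousAt.eventually_ne ha0
    filter_upwards [e1, e2] with x hx1 hx2
    have h1 : eval (φ x) P = 0 := by
      rw [hP, map_add, map_mul, eval_X]
      simp only [φ]
      rw [ha, hb, Function.update_self]
      field_simp
      ring
    have h2 : eval (φ x) G = 0 := by
      by_contra h3
      exact hx1 ⟨h1, h3⟩
    have h3 := congrArg (eval (φ x)) hu
    rw [map_sub, map_mul, map_mul, h1, h2, mul_zero, zero_mul, zero_sub, neg_eq_zero] at h3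
    rw [← hR x (-(eval x b) / eval x a)]
    exact h3
  rw [hR0, sub_zero] at hu
  have h4 : P ∣ a ^ D * G := ⟨u, hu⟩
  rcases hprime.dvd_or_dvd h4 with h5 | h5
  · obtain ⟨c, hc⟩ := hprime.dvd_of_dvd_pow h5
    rw [hc, map_mul, h0, zero_mul] at ha0
    exact ha0 rfl
  · exact hG h5

/-- the derivative of a polynomial which is affine in the variable `q` -/
theorem Ind.pderiv_eq [Fintype σ] {q : σ} {a : MvPolynomial σ ℂ} (ha : Ind q a) :
    pderiv q a = 0 := by
  apply MvPolynomial.funext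
  intro x
  rw [map_zero]
  have h1 := (ift_hasStrict a x).hasFDerivAt
  have h2 : HasDerivAt (fun t : ℂ => Function.update x q t) (Pi.single q 1) (x q) :=
    hasDerivAt_update x q (x q)
  have h3 : HasFDerivAt (fun x => eval x a) (iftD a x) (Function.update x q (x q)) := by
    rw [Function.update_eq_self]
    exact h1
  have h4 := h3.comp_hasDerivAt (x q) h2
  have h5 : (fun x => eval x a) ∘ (fun t : ℂ => Function.update x q t) = fun _ => eval x a := by
    funext t
    exact ha x t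
  rw [h5] at h4
  have h6 := h4.unique (hasDerivAt_const (x q) (eval x a))
  rw [iftD_apply] at h6
  rw [← h6, Finset.sum_eq_single q]
  · simp
  · intro i _ hi
    rw [Pi.single_eq_of_ne hi, mul_zero]
  · intro h
    exact absurd (Finset.mem_univ q) h

theorem pderiv_lin [Fintype σ] {P a b : MvPolynomial σ ℂ} {q : σ} (ha : Ind q a) (hb : Ind q b)
    (hP : P = X q * a + b) : pderiv q P = a := by
  rw [hP, map_add, Derivation.leibniz, ha.pderiv_eq, hb.pderiv_eq, pderiv_X_self]
  simp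

end Pool.RQ
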