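import Pool.Agent.Helper97.RQ.Core
import Pool.Agent.Helper97.RQ.IntPt

/-!
# Deciding the vanishing of the permanent by queries to Pfaffians (MP_381749_lc)
-/

set_option autoImplicit false

namespace Pool.RQ

open MvPolynomial Pool.Agent.Helper24.SQ Pool.CD

theorem infinite_near (x : ℚ) {ε : ℚ} (hε : 0 < ε) :
    {z : ℂ | ∃ y : ℚ, |y - x| < ε ∧ z = (y : ℂ)}.Infinite := by
  have h1 : (Set.Ioo (x - ε) (x + ε)).Infinite := Set.Ioo_infinite (by linarith)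
  refine (h1.image (f := fun y : ℚ => (y : ℂ)) ?_).mono ?_
  · exact fun y _ y' _ h => Rat.cast_injective h
  · rintro _ ⟨y, hy, rfl⟩
    refine ⟨y, ?_, rfl⟩
    rw [abs_lt]
    constructor <;> linarith [hy.1, hy.2]

/-- near each rational matrix there is one with nonzero permanent -/
theorem exists_near {n : ℕ} (hn : 1 ≤ n) (X : Matrix (Fin n) (Fin n) ℚ) {ε : ℚ} (hε : 0 < ε) :
    ∃ Y : Matrix (Fin n) (Fin n) ℚ, (∀ a b, |Y a b - X a b| < ε) ∧ Y.permanent ≠ 0 := by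
  by_contra hne
  push Not at hne
  apply (perm_prime hn).ne_zero
  refine funext_set (fun p => {z : ℂ | ∃ y : ℚ, |y - X p.1 p.2| < ε ∧ z = (y : ℂ)})
    (fun p => infinite_near _ hε) fun x hx => ?_
  have hx' : ∀ p, ∃ y : ℚ, |y - X p.1 p.2| < ε ∧ x p = (y : ℂ) := fun p => hx p (Set.mem_univ p)
  choose y hy hxy using hx'
  have h1 := hne (Matrix.of fun a b => y (a, b)) fun a b => hy (a, b)
  have h2 : x = fun p => (y p : ℂ) := funext hxy
  rw [map_zero, h2, eval_permPoly]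
  have h3 : ((Matrix.of fun a b => y (a, b)).permanent : ℂ) =
      (Matrix.of fun i j => (y (i, j) : ℂ)).permanent := by
    unfold Matrix.permanent
    push_cast
    rfl
  rw [← h3, h1, Rat.cast_zero]

theorem lim_of_near {m δ : ℕ} {σ : Type} {G : MvPolynomial σ ℂ} (h : Near (PfCls m δ) G) :
    Lim m δ G := by
  intro ε hε
  obtain ⟨P, hP, hc⟩ := h ε hε
  exact ⟨P, 1, hP, by simpa using hc⟩

/-- **Main theorem**: integer matrices of permanent `0` at which no `G i` vanishes, and rational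
matrices near them. -/
theorem final : ∃ c : ℝ, 0 < c ∧ ∀ n m δ k : ℕ, 1 ≤ δ → (δ : ℝ) ≤ max 1 (c * n) →
    (m : ℝ) * δ < c * (n : ℝ) ^ 3 → ∀ G : Fin k → MvPolynomial (Fin n × Fin n) ℂ,
    (∀ i, G i ≠ 0 ∧ Near (PfCls m δ) (G i)) →
    ∀ (α : Type) (q : Matrix (Fin n) (Fin n) ℚ → α),
    (∀ X : Matrix (Fin n) (Fin n) ℚ, (∀ i, eval (fun p => (X p.1 p.2 : ℂ)) (G i) ≠ 0) →
      ∃ ε : ℚ, 0 < ε ∧
        ∀ Y : Matrix (Fin n) (Fin n) ℚ, (∀ a b, |Y a b - X a b| < ε) → q Y = q X) →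
    ∃ (X : Matrix (Fin n) (Fin n) ℤ) (Y : Matrix (Fin n) (Fin n) ℚ),
      X.permanent = 0 ∧ (∀ i, eval (fun p => (X p.1 p.2 : ℂ)) (G i) ≠ 0) ∧
      Y.permanent ≠ 0 ∧ q Y = q (X.map (Int.cast : ℤ → ℚ)) := by
  classical
  obtain ⟨c, hc, H⟩ := multiples
  refine ⟨c, hc, fun n m δ k hδ hδn hlt G hG α q hq => ?_⟩
  rcases Nat.eq_zero_or_pos n with h0 | hn
  · exfalso
    subst h0
    have : (0 : ℝ) ≤ (m : ℝ) * (δ : ℝ) := by positivity
    have h1 : c * ((0 : ℕ) : ℝ) ^ 3 = 0 := by simp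
    rw [h1] at hlt
    linarith
  have hdvd : ∀ i, ¬ permPoly n ∣ G i := by
    intro i hi
    exact absurd (H n m δ hδ hδn (G i) (hG i).1 hi (lim_of_near (hG i).2)) (not_le.2 hlt)
  have hprod : ¬ permPoly n ∣ ∏ i, G i := by
    intro h
    obtain ⟨i, -, hi⟩ := (Prime.dvd_finsetProd_iff (perm_prime hn) _).1 h
    exact hdvd i hi
  obtain ⟨X, hX, hGX⟩ := int_pt n hn _ hprod
  rw [map_prod, Finset.prod_ne_zero_iff] at hGX
  have h3 : (fun p : Fin n × Fin n => (((X.map (Int.cast : ℤ → ℚ)) p.1 p.2 : ℚ) : ℂ)) =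
      fun p => (X p.1 p.2 : ℂ) := by
    funext p
    rw [Matrix.map_apply]
    push_cast
    rfl
  obtain ⟨ε, hε, hloc⟩ := hq (X.map (Int.cast : ℤ → ℚ)) fun i => by
    rw [h3]
    exact hGX i (Finset.mem_univ i)
  obtain ⟨Y, hY, hYp⟩ := exists_near hn (X.map (Int.cast : ℤ → ℚ)) hε
  exact ⟨X, Y, hX, fun i => hGX i (Finset.mem_univ i), hYp, hloc Y hY⟩

end Pool.RQ
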