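import Pool.Agent.Helper97.RQ.Param

/-!
# Generic affine substitutions (MP_381749_lc)
-/

set_option autoImplicit false

namespace Pool.RQ

open MvPolynomial Filter Topology Pool.Agent.Helper24.SQ

section

variable {σ : Type} [Fintype σ]

/-- chain rule -/
theorem pderiv_aeval {τ : Type} (f : σ → MvPolynomial τ ℂ) (o : τ) (P : MvPolynomial σ ℂ) :
    pderiv o (aeval f P) = ∑ q, aeval f (pderiv q P) * pderiv o (f q) := by
  classical
  induction P using MvPolynomial.induction_on with
  | C a =>
    rw [aeval_C, algebraMap_eq, pderiv_C]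
    exact (Finset.sum_eq_zero fun q _ => by rw [pderiv_C, map_zero, zero_mul]).symm
  | add p q hp hq =>
    rw [map_add, map_add, hp, hq, ← Finset.sum_add_distrib]
    refine Finset.sum_congr rfl fun i _ => ?_
    rw [map_add, map_add, add_mul]
  | mul_X p i hp =>
    rw [map_mul, aeval_X, Derivation.leibniz, hp, smul_eq_mul, smul_eq_mul, Finset.mul_sum]
    have h1 : ∀ q, aeval f (pderiv q (p * X i)) * pderiv o (f q) =
        (if q = i then aeval f p * pderiv o (f i) else 0) +
          f i * (aeval f (pderiv q p) * pderiv o (f q)) := by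
      intro q
      rw [Derivation.leibniz, smul_eq_mul, smul_eq_mul, map_add, map_mul, map_mul, aeval_X]
      by_cases hq : q = i
      · subst hq
        rw [if_pos rfl, pderiv_X_self, map_one]
        ring
      · rw [if_neg hq, pderiv_X_of_ne (Ne.symm hq), map_zero]
        ring
    simp only [h1]
    rw [Finset.sum_add_distrib, Finset.sum_ite_eq' Finset.univ i, if_pos (Finset.mem_univ i)]

omit [Fintype σ] in
theorem pderiv_fc {τ : Type} [Fintype τ] (c : σ → Option τ → ℂ) (q : σ) (o : τ) :
    pderiv o (fc c q) = C (c q (some o)) := by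
  classical
  unfold fc
  rw [map_add, pderiv_C, zero_add, map_sum, Finset.sum_eq_single o]
  · rw [Derivation.leibniz, pderiv_C, pderiv_X_self, smul_eq_mul, smul_eq_mul]
    ring
  · intro b _ hb
    rw [Derivation.leibniz, pderiv_C, pderiv_X_of_ne hb, smul_eq_mul, smul_eq_mul]
    ring
  · intro h
    exact absurd (Finset.mem_univ o) h

omit [Fintype σ] in
theorem eval_fc {τ : Type} [Fintype τ] (c : σ → Option τ → ℂ) (q : σ) (z : τ → ℂ) :
    eval z (fc c q) = c q none + ∑ o, c q (some o) * z o := by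
  unfold fc
  simp only [map_add, map_sum, map_mul, eval_C, eval_X]

omit [Fintype σ] in
theorem eval_aeval {τ : Type} (f : σ → MvPolynomial τ ℂ) (z : τ → ℂ) (P : MvPolynomial σ ℂ) :
    eval z (aeval f P) = eval (fun q => eval z (f q)) P := by
  have h := eval₂Hom_congr (f₁ := (eval z).comp (C : ℂ →+* MvPolynomial τ ℂ))
    (f₂ := RingHom.id ℂ) (g₁ := fun q => eval z (f q)) (g₂ := fun q => eval z (f q)) (p₁ := P)
    (p₂ := P) (by ext; simp) rfl rfl
  have h2 : eval z (aeval f P) = eval₂Hom ((eval z).comp (C : ℂ →+* MvPolynomial τ ℂ))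
      (fun q => eval z (f q)) P := by
    rw [aeval_eq_eval₂Hom, algebraMap_eq, map_eval₂Hom]
  rw [h2, h]
  rfl

/-- value of the first derivatives -/
theorem eval_pderiv {τ : Type} [Fintype τ] (c : σ → Option τ → ℂ) (z : τ → ℂ) (o : τ)
    (P : MvPolynomial σ ℂ) : eval z (pderiv o (aeval (fc c) P)) =
      ∑ q, eval (fun q => eval z (fc c q)) (pderiv q P) * c q (some o) := by
  rw [pderiv_aeval, map_sum]
  refine Finset.sum_congr rfl fun q _ => ?_
  rw [map_mul, pderiv_fc, eval_C, eval_aeval]

theorem eval_pderiv2 {τ : Type} [Fintype τ] (c : σ → Option τ → ℂ) (z : τ → ℂ) (o o' : τ)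
    (P : MvPolynomial σ ℂ) : eval z (pderiv o' (pderiv o (aeval (fc c) P))) =
      ∑ q, (∑ q', eval (fun q => eval z (fc c q)) (pderiv q' (pderiv q P)) * c q' (some o')) *
        c q (some o) := by
  rw [pderiv_aeval, map_sum, map_sum]
  refine Finset.sum_congr rfl fun q _ => ?_
  rw [pderiv_fc, Derivation.leibniz, pderiv_C, smul_zero, zero_add, smul_eq_mul, map_mul, eval_C,
    eval_pderiv, mul_comm]

theorem continuous_pt {τ : Type} [Fintype τ] :
    Continuous fun p : (σ → Option τ → ℂ) × (τ → ℂ) => fun q => eval p.2 (fc p.1 q) := by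
  refine continuous_pi fun q => ?_
  simp only [eval_fc]
  fun_prop

theorem continuous_val {τ : Type} [Fintype τ] (G : MvPolynomial σ ℂ) :
    Continuous fun p : (σ → Option τ → ℂ) × (τ → ℂ) => eval p.2 (aeval (fc p.1) G) := by
  simp only [eval_aeval]
  exact (MvPolynomial.continuous_eval G).comp continuous_pt

theorem ker_iff_det {τ : Type} [Fintype τ] [DecidableEq τ] (J : Matrix τ τ ℂ) (h : J.det ≠ 0)
    (v : τ → ℂ) (hv : ∀ j, ∑ i, J j i * v i = 0) : v = 0 := by
  by_contra hv0
  exact h (Matrix.exists_mulVec_eq_zero_iff.1 ⟨v, hv0, funext hv⟩)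

theorem det_of_ker {τ : Type} [Fintype τ] [DecidableEq τ] (J : Matrix τ τ ℂ)
    (h : ∀ v : τ → ℂ, (∀ j, ∑ i, J j i * v i = 0) → v = 0) : J.det ≠ 0 := by
  intro hd
  obtain ⟨v, hv0, hv⟩ := Matrix.exists_mulVec_eq_zero_iff.2 hd
  exact hv0 (h v fun j => congrFun hv j)

/-- Jacobian matrix of the critical system -/
noncomputable def jac {ι : Type} [Fintype ι] (P : MvPolynomial σ ℂ) (z : Option ι → ℂ)
    (c : σ → Option (Option ι) → ℂ) : Matrix (Option ι) (Option ι) ℂ :=
  Matrix.of fun o o' => eval z (pderiv o' (critSys (aeval (fc c) P) o))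

theorem continuous_jac {ι : Type} [Fintype ι] (P : MvPolynomial σ ℂ) (z : Option ι → ℂ) :
    Continuous fun c => jac P z c := by
  refine continuous_matrix fun o o' => ?_
  have hpt : Continuous fun c : σ → Option (Option ι) → ℂ => fun q => eval z (fc c q) := by
    refine continuous_pi fun q => ?_
    simp only [eval_fc]
    fun_prop
  have h0 : ∀ R : MvPolynomial σ ℂ, Continuous fun c : σ → Option (Option ι) → ℂ =>
      eval (fun q => eval z (fc c q)) R := fun R => (MvPolynomial.continuous_eval R).comp hpt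
  rcases o with _ | v
  · have h1 : ∀ c, jac P z c none o' =
        ∑ q, eval (fun q => eval z (fc c q)) (pderiv q P) * c q (some o') :=
      fun c => eval_pderiv c z o' P
    simp only [h1]
    exact continuous_finsetSum _ fun q _ => (h0 _).mul (by fun_prop)
  · have h1 : ∀ c, jac P z c (some v) o' =
        ∑ q, (∑ q', eval (fun q => eval z (fc c q)) (pderiv q' (pderiv q P)) * c q' (some o')) *
        c q (some (some v)) := fun c => eval_pderiv2 c z (some v) o' P
    simp only [h1]
    refine continuous_finsetSum _ fun q _ => Continuous.mul ?_ (by fun_prop)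
    exact continuous_finsetSum _ fun q' _ => (h0 _).mul (by fun_prop)

/-- a critical point can be moved in the hypersurface -/
theorem move [DecidableEq σ] {P G : MvPolynomial σ ℂ} (hprime : Prime P)
    (hlin : ∀ q, ∃ a b, Ind q a ∧ Ind q b ∧ P = X q * a + b) (hG : ¬ P ∣ G) {ι : Type} [Fintype ι]
    (c₀ : σ → Option (Option ι) → ℂ) (z : Option ι → ℂ) (hz : CritPt (aeval (fc c₀) P) z) :
    ∃ᶠ c in 𝓝 c₀, CritPt (aeval (fc c) P) z ∧ eval z (aeval (fc c) G) ≠ 0 := by
  classical
  set x₀ : σ → ℂ := fun q => eval z (fc c₀ q) with hx₀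
  have hker := ((critPt_iff _ _).1 hz).2
  obtain ⟨hz1, hz2, hz3, hz4⟩ := hz
  have hP0 : eval x₀ P = 0 := by rw [← hz1, eval_aeval]
  let S : (σ → ℂ) → ℂ := fun x => ∑ q, eval x (pderiv q P) * c₀ q (some none)
  have hS0 : S x₀ ≠ 0 := by
    have h1 := hz3
    rw [eval_pderiv] at h1
    exact h1
  let lam : ι → (σ → ℂ) → ℂ := fun v x =>
    (∑ q, eval x (pderiv q P) * c₀ q (some (some v))) / S x
  have hlam0 : ∀ v, lam v x₀ = 0 := by
    intro v
    have h1 := hz2 v
    rw [eval_pderiv] at h1
    simp only [lam]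
    rw [h1, zero_div]
  let Ψ : (σ → ℂ) → (σ → Option (Option ι) → ℂ) := fun x q o => o.elim
    (x q - (c₀ q (some none) * z none +
      ∑ v, (c₀ q (some (some v)) - lam v x * c₀ q (some none)) * z (some v)))
    (fun o => o.elim (c₀ q (some none)) fun v => c₀ q (some (some v)) - lam v x * c₀ q (some none))
  have hΨpt : ∀ x, (fun q => eval z (fc (Ψ x) q)) = x := by
    intro x
    funext q
    rw [eval_fc, Fintype.sum_option]
    simp only [Ψ, Option.elim_none, Option.elim_some]
    ring
  have hΨ0 : Ψ x₀ = c₀ := by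
    funext q o
    rcases o with _ | _ | v
    · simp only [Ψ, Option.elim_none, hlam0, zero_mul, sub_zero]
      simp only [hx₀, eval_fc, Fintype.sum_option]
      ring
    · rfl
    · simp only [Ψ, Option.elim_some, hlam0, zero_mul, sub_zero]
  have hcS : Continuous S := continuous_finsetSum _ fun q _ =>
    (MvPolynomial.continuous_eval _).mul continuous_const
  have hclam : ∀ v, ContinuousAt (lam v) x₀ := fun v =>
    (continuous_finsetSum _ fun q _ =>
      (MvPolynomial.continuous_eval _).mul continuous_const).continuousAt.div hcS.continuousAt hS0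
  have hΨc : ContinuousAt Ψ x₀ := by
    refine continuousAt_pi.2 fun q => continuousAt_pi.2 fun o => ?_
    rcases o with _ | _ | v
    · simp only [Ψ, Option.elim_none]
      refine (continuous_apply q).continuousAt.sub (continuousAt_const.add ?_)
      refine tendsto_finsetSum _ fun v _ => ?_
      exact (continuousAt_const.sub ((hclam v).mul continuousAt_const)).mul continuousAt_const
    · exact continuousAt_const
    · exact continuousAt_const.sub ((hclam v).mul continuousAt_const)
  have hT : Tendsto Ψ (𝓝 x₀) (𝓝 c₀) := by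
    have h := hΨc.tendsto
    rwa [hΨ0] at h
  -- the derivatives in the directions `v`
  have hdet : ∀ᶠ x in 𝓝 x₀, (jac P z (Ψ x)).det ≠ 0 := by
    have h1 : (jac P z c₀).det ≠ 0 := det_of_ker _ fun v hv => hker v hv
    have h2 : ∀ᶠ c in 𝓝 c₀, (jac P z c).det ≠ 0 :=
      ((continuous_jac P z).matrix_det).continuousAt.eventually_ne h1
    exact hT.eventually h2
  have hS : ∀ᶠ x in 𝓝 x₀, S x ≠ 0 := hcS.continuousAt.eventually_ne hS0
  obtain ⟨q, hq⟩ : ∃ q, eval x₀ (pderiv q P) ≠ 0 := by
    by_contra hne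
    push Not at hne
    apply hS0
    simp only [S]
    exact Finset.sum_eq_zero fun q _ => by rw [hne, zero_mul]
  obtain ⟨a, b, ha, hb, hab⟩ := hlin q
  rw [pderiv_lin ha hb hab] at hq
  have hd := dense q ha hb hab hprime hG x₀ hP0 hq
  refine hT.frequently ((hd.and_eventually (hdet.and hS)).mono ?_)
  rintro x ⟨⟨h1, h2⟩, h3, h4⟩
  refine ⟨?_, ?_⟩
  · rw [critPt_iff]
    refine ⟨?_, fun v hv => ker_iff_det _ h3 v hv⟩
    rintro (_ | v)
    · simp only [critSys, Option.elim_none]
      rw [eval_aeval, hΨpt, h1]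
    · simp only [critSys, Option.elim_some]
      rw [eval_pderiv, hΨpt]
      have h5 : ∀ q, Ψ x q (some (some v)) = c₀ q (some (some v)) - lam v x * c₀ q (some none) :=
        fun q => rfl
      simp only [h5, mul_sub]
      rw [Finset.sum_sub_distrib]
      have h6 : ∑ q, eval x (pderiv q P) * (lam v x * c₀ q (some none)) = lam v x * S x := by
        simp only [S]
        rw [Finset.mul_sum]
        exact Finset.sum_congr rfl fun q _ => by ring
      rw [h6]
      simp only [lam]
      rw [div_mul_cancel₀ _ h4, sub_self]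
  · rw [eval_aeval, hΨpt]
    exact h2

/-- **Generic affine substitutions.** -/
theorem generic [DecidableEq σ] {P G : MvPolynomial σ ℂ} (hprime : Prime P)
    (hlin : ∀ q, ∃ a b, Ind q a ∧ Ind q b ∧ P = X q * a + b) (hG : ¬ P ∣ G) {ι : Type} [Fintype ι]
    (c₀ : σ → Option (Option ι) → ℂ) (Z : Finset (Option ι → ℂ))
    (hZ : ∀ z ∈ Z, CritPt (aeval (fc c₀) P) z) :
    ∃ (c : σ → Option (Option ι) → ℂ) (Z' : Finset (Option ι → ℂ)), Z'.card = Z.card ∧
      ∀ z ∈ Z', CritPt (aeval (fc c) P) z ∧ eval z (aeval (fc c) G) ≠ 0 := by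
  classical
  have h0 := persist_ev P c₀ Set.univ isOpen_univ Z hZ fun z _ => Set.mem_univ z
  obtain ⟨U, hU, hUo, hU0⟩ := eventually_nhds_iff.1 h0
  have key : ∀ k ≤ Z.card, ∃ c ∈ U, ∃ Z₁ : Finset (Option ι → ℂ), Z₁.card = k ∧
      ∀ z ∈ Z₁, CritPt (aeval (fc c) P) z ∧ eval z (aeval (fc c) G) ≠ 0 := by
    intro k
    induction k with
    | zero => exact fun _ => ⟨c₀, hU0, ∅, rfl, by simp⟩
    | succ k ih =>
      intro hk
      obtain ⟨c, hcU, Z₁, hZ₁, hgood⟩ := ih (by omega)
      obtain ⟨Zc, hZc, hcrit⟩ := hU c hcU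
      obtain ⟨z, hz, hz1⟩ := Finset.exists_mem_notMem_of_card_lt_card
        (show Z₁.card < Zc.card by omega)
      -- a neighbourhood
      have hopen : IsOpen {p : (σ → Option (Option ι) → ℂ) × (Option ι → ℂ) |
          eval p.2 (aeval (fc p.1) G) ≠ 0} := isOpen_ne_fun (continuous_val G) continuous_const
      obtain ⟨V, W, hV, hW, hcV, hZW, hVW⟩ := generalized_tube_lemma (s := {c})
        isCompact_singleton (t := (Z₁ : Set (Option ι → ℂ))) Z₁.finite_toSet.isCompact hopen (by
          rintro ⟨c', z'⟩ ⟨hc', hz'⟩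
          obtain rfl : c' = c := hc'
          exact (hgood z' hz').2)
      have e1 := persist_ev P c (W ∩ {z}ᶜ) (hW.inter isOpen_compl_singleton) Z₁
        (fun z' hz' => (hgood z' hz').1) (fun z' hz' => ⟨hZW hz', fun h => hz1 (h ▸ hz')⟩)
      have e2 : ∀ᶠ c' in 𝓝 c, c' ∈ U := hUo.mem_nhds hcU
      have e3 : ∀ᶠ c' in 𝓝 c, c' ∈ V := hV.mem_nhds (hcV rfl)
      have e4 := move hprime hlin hG c z (hcrit z hz).2
      have e5 := (e4.and_eventually (e1.and (e2.and e3))).exists
      obtain ⟨c', hc12, hc3, hc'U, hc'V⟩ := e5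
      obtain ⟨hc1, hc2⟩ := hc12
      obtain ⟨Z₁', hcard, hZ₁'⟩ := hc3
      refine ⟨c', hc'U, insert z Z₁', ?_, ?_⟩
      · rw [Finset.card_insert_of_notMem, hcard, hZ₁]
        intro h
        exact (hZ₁' z h).1.2 rfl
      · intro z' hz'
        rw [Finset.mem_insert] at hz'
        rcases hz' with h | h
        · rw [h]
          exact ⟨hc1, hc2⟩
        · have h6 := hZ₁' z' h
          have h7 : (c', z') ∈ V ×ˢ W := Set.mk_mem_prod hc'V h6.1.1
          have h8 := hVW h7
          exact ⟨h6.2, h8⟩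
  obtain ⟨c, -, Z', hc, hZ'⟩ := key Z.card le_rfl
  exact ⟨c, Z', hc, hZ'⟩

end

end Pool.RQ
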