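import Pool.Agent.Helper97.RQ.Dens

/-!
# Persistence of nondegenerate critical points for families of affine maps (MP_381749_lc)
-/

set_option autoImplicit false

namespace Pool.RQ

open MvPolynomial Filter Topology Pool.Agent.Helper24.SQ

/-- Nondegenerate zeros persist, in an open set. -/
theorem persist_open {σ τ κ : Type} [Fintype σ] [Fintype τ] [Fintype κ]
    (hcard : Fintype.card τ = Fintype.card σ) (F : τ → MvPolynomial σ ℂ)
    (G : κ → τ → MvPolynomial σ ℂ) (W : Set (σ → ℂ)) (hW : IsOpen W) (Z : Finset (σ → ℂ))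
    (hZ : ∀ z ∈ Z, NonDeg F z) (hZW : ∀ z ∈ Z, z ∈ W) :
    ∀ᶠ t : κ → ℂ in 𝓝 0, ∃ Z' : Finset (σ → ℂ), Z'.card = Z.card ∧
      ∀ z ∈ Z', z ∈ W ∧ NonDeg (fun j => F j + ∑ k, t k • G k j) z := by
  classical
  obtain ⟨e⟩ : Nonempty (σ ≃ τ) := ⟨Fintype.equivOfCardEq hcard.symm⟩
  -- the Jacobian matrix
  let M : (κ → ℂ) × (σ → ℂ) → Matrix σ σ ℂ := fun p => Matrix.of fun i j =>
    eval p.2 (pderiv j (F (e i))) + ∑ k, p.1 k * eval p.2 (pderiv j (G k (e i)))
  have hMapp : ∀ p i j, M p i j =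
      eval p.2 (pderiv j (F (e i))) + ∑ k, p.1 k * eval p.2 (pderiv j (G k (e i))) :=
    fun _ _ _ => rfl
  have hMeval : ∀ t x i j, eval x (pderiv j (F (e i) + ∑ k, t k • G k (e i))) = M (t, x) i j := by
    intro t x i j
    rw [hMapp]
    simp [map_sum, smul_eval]
  have hnondeg : ∀ t x, (M (t, x)).det ≠ 0 ↔
      ∀ v : σ → ℂ, (∀ j, ∑ i, eval x (pderiv i (F j + ∑ k, t k • G k j)) * v i = 0) → v = 0 := by
    intro t x
    have h1 : ∀ v : σ → ℂ, (M (t, x)).mulVec v = 0 ↔
        ∀ j, ∑ i, eval x (pderiv i (F j + ∑ k, t k • G k j)) * v i = 0 := by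
      intro v
      constructor
      · intro h j
        obtain ⟨i, rfl⟩ := e.surjective j
        have h2 := congrFun h i
        simp only [Matrix.mulVec, dotProduct, Pi.zero_apply] at h2
        rw [← h2]
        exact Finset.sum_congr rfl fun j _ => by rw [hMeval]
      · intro h
        funext i
        simp only [Matrix.mulVec, dotProduct, Pi.zero_apply]
        rw [← h (e i)]
        exact Finset.sum_congr rfl fun j _ => by rw [hMeval]
    rw [Ne, ← Matrix.exists_mulVec_eq_zero_iff]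
    push Not
    constructor
    · intro h v hv
      by_contra hv0
      exact h v hv0 ((h1 v).2 hv)
    · intro h v hv0 hv
      exact hv0 (h v ((h1 v).1 hv))
  have hMcont : Continuous fun p => (M p).det := by
    refine Continuous.matrix_det ?_
    refine continuous_matrix fun i j => ?_
    simp only [hMapp]
    have h1 : ∀ q : MvPolynomial σ ℂ, Continuous fun p : (κ → ℂ) × (σ → ℂ) => eval p.2 q :=
      fun q => (MvPolynomial.continuous_eval q).comp continuous_snd
    refine (h1 _).add (continuous_finsetSum _ fun k _ => ?_)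
    exact ((continuous_apply k).comp continuous_fst).mul (h1 _)
  -- the map
  let Φ : (κ → ℂ) × (σ → ℂ) → (κ → ℂ) × (σ → ℂ) := fun p =>
    (p.1, fun i => eval p.2 (F (e i)) + ∑ k, p.1 k * eval p.2 (G k (e i)))
  have hΦzero : ∀ z, (∀ j, eval z (F j) = 0) → Φ (0, z) = (0, 0) := by
    intro z hz
    refine Prod.ext rfl ?_
    funext i
    simp [Φ, hz]
  let L : (σ → ℂ) → ((κ → ℂ) × (σ → ℂ) →L[ℂ] (κ → ℂ) × (σ → ℂ)) := fun z =>
    (ContinuousLinearMap.fst ℂ (κ → ℂ) (σ → ℂ)).prod
      (ContinuousLinearMap.pi fun i => (iftD (F (e i)) z).comp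
        (ContinuousLinearMap.snd ℂ (κ → ℂ) (σ → ℂ)) +
        ∑ k, eval z (G k (e i)) • (ContinuousLinearMap.proj k : (κ → ℂ) →L[ℂ] ℂ).comp
          (ContinuousLinearMap.fst ℂ (κ → ℂ) (σ → ℂ)))
  have hL : ∀ z, HasStrictFDerivAt Φ (L z) (0, z) := by
    intro z
    have h1 : ∀ q : MvPolynomial σ ℂ, HasStrictFDerivAt
        (fun p : (κ → ℂ) × (σ → ℂ) => eval p.2 q)
        ((iftD q z).comp (ContinuousLinearMap.snd ℂ (κ → ℂ) (σ → ℂ))) ((0 : κ → ℂ), z) := fun q =>
      (ift_hasStrict q z).comp ((0 : κ → ℂ), z) (hasStrictFDerivAt_snd (𝕜 := ℂ))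
    refine HasStrictFDerivAt.prodMk hasStrictFDerivAt_fst ?_
    rw [hasStrictFDerivAt_pi']
    intro i
    rw [ContinuousLinearMap.proj_pi]
    refine (h1 _).add ?_
    refine HasStrictFDerivAt.fun_sum fun k _ => ?_
    have h2 : HasStrictFDerivAt (fun p : (κ → ℂ) × (σ → ℂ) => p.1 k)
        ((ContinuousLinearMap.proj k : (κ → ℂ) →L[ℂ] ℂ).comp
          (ContinuousLinearMap.fst ℂ (κ → ℂ) (σ → ℂ))) (0, z) :=
      (hasStrictFDerivAt_apply (𝕜 := ℂ) k (0 : κ → ℂ)).comp ((0 : κ → ℂ), z)
        (hasStrictFDerivAt_fst (𝕜 := ℂ))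
    have h3 := h2.mul (h1 (G k (e i)))
    refine h3.congr_fderiv ?_
    ext v
    · simp
    · simp
  have hrange : ∀ z, (M (0, z)).det ≠ 0 → (L z).range = ⊤ := by
    intro z hz
    rw [LinearMap.range_eq_top]
    rintro ⟨s, y⟩
    have hunit : IsUnit (M (0, z)).det := isUnit_iff_ne_zero.2 hz
    refine ⟨(s, (M (0, z))⁻¹.mulVec (fun i => y i - ∑ k, eval z (G k (e i)) * s k)), ?_⟩
    refine Prod.ext rfl ?_
    funext i
    have h2 : (M (0, z)).mulVec ((M (0, z))⁻¹.mulVec
        (fun i => y i - ∑ k, eval z (G k (e i)) * s k)) =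
        fun i => y i - ∑ k, eval z (G k (e i)) * s k := by
      rw [Matrix.mulVec_mulVec, Matrix.mul_nonsing_inv _ hunit, Matrix.one_mulVec]
    have h3 := congrFun h2 i
    simp only [Matrix.mulVec, dotProduct] at h3
    have h4 : ∀ j, M (0, z) i j = eval z (pderiv j (F (e i))) := by
      intro j
      rw [hMapp]
      simp
    simp only [h4] at h3
    change (iftD (F (e i)) z) _ + (∑ k, eval z (G k (e i)) •
      (ContinuousLinearMap.proj k : (κ → ℂ) →L[ℂ] ℂ).comp
          (ContinuousLinearMap.fst ℂ (κ → ℂ) (σ → ℂ))) (s, _) = y i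
    rw [iftD_apply, sum_apply]
    simp only [smul_apply, ContinuousLinearMap.comp_apply,
      ContinuousLinearMap.coe_fst',
      ContinuousLinearMap.proj_apply, smul_eq_mul]
    have h5 : ∑ j, eval z (pderiv j (F (e i))) *
        ((M (0, z))⁻¹.mulVec (fun i => y i - ∑ k, eval z (G k (e i)) * s k)) j =
        y i - ∑ k, eval z (G k (e i)) * s k := by
      simpa [Matrix.mulVec, dotProduct] using h3
    have h6 : ∀ w : σ → ℂ, (ContinuousLinearMap.snd ℂ (κ → ℂ) (σ → ℂ)) (s, w) = w := fun _ => rfl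
    have h7 : ∑ j, eval z (pderiv j (F (e i))) *
        (ContinuousLinearMap.snd ℂ (κ → ℂ) (σ → ℂ)) (s, (M (0, z))⁻¹.mulVec
          (fun i => y i - ∑ k, eval z (G k (e i)) * s k)) j =
        y i - ∑ k, eval z (G k (e i)) * s k := h5
    exact (congrArg (· + ∑ k, eval z (G k (e i)) * s k) h7).trans (sub_add_cancel _ _)
  -- disjoint neighbourhoods
  obtain ⟨U, hU, hdisj⟩ := Z.finite_toSet.t2_separation
  have key : ∀ z ∈ Z, ∀ᶠ t : κ → ℂ in 𝓝 0, ∃ x ∈ U z ∩ W,
      (∀ j, eval x (F j + ∑ k, t k • G k j) = 0) ∧ (M (t, x)).det ≠ 0 := by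
    intro z hz
    obtain ⟨h1, h2⟩ := hZ z hz
    have hdet : (M (0, z)).det ≠ 0 := by
      rw [hnondeg]
      intro v hv
      refine h2 v fun j => ?_
      have := hv j
      simpa using this
    have hS : {p : (κ → ℂ) × (σ → ℂ) | p.2 ∈ U z ∩ W ∧ (M p).det ≠ 0} ∈
        𝓝 ((0 : κ → ℂ), z) := by
      have h3 : ∀ᶠ p : (κ → ℂ) × (σ → ℂ) in 𝓝 ((0 : κ → ℂ), z), p.2 ∈ U z ∩ W :=
        continuous_snd.continuousAt.eventually
          (((hU z).2.inter hW).mem_nhds ⟨(hU z).1, hZW z hz⟩)
      have h4 : ∀ᶠ p : (κ → ℂ) × (σ → ℂ) in 𝓝 ((0 : κ → ℂ), z), (M p).det ≠ 0 :=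
        hMcont.continuousAt.eventually_ne hdet
      filter_upwards [h3, h4] with p h5 h6
      exact ⟨h5, h6⟩
    have hmap := (hL z).map_nhds_eq_of_surj (hrange z hdet)
    have h5 : Φ '' {p : (κ → ℂ) × (σ → ℂ) | p.2 ∈ U z ∩ W ∧ (M p).det ≠ 0} ∈
        𝓝 ((0 : κ → ℂ), (0 : σ → ℂ)) := by
      rw [← hΦzero z h1, ← hmap]
      exact image_mem_map hS
    have h6 : Tendsto (fun t : κ → ℂ => (t, (0 : σ → ℂ))) (𝓝 0) (𝓝 (0, 0)) :=
      (Continuous.prodMk continuous_id continuous_const).tendsto' _ _ rfl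
    filter_upwards [h6 h5] with t ht
    obtain ⟨⟨t', x⟩, ⟨hx1, hx2⟩, hx3⟩ := ht
    have h7 : t' = t := congrArg Prod.fst hx3
    subst h7
    refine ⟨x, hx1, ?_, hx2⟩
    intro j
    obtain ⟨i, rfl⟩ := e.surjective j
    have h8 := congrFun (congrArg Prod.snd hx3) i
    simpa [Φ, map_sum, smul_eval] using h8
  have key2 : ∀ᶠ t : κ → ℂ in 𝓝 0, ∀ z ∈ Z, ∃ x ∈ U z ∩ W,
      (∀ j, eval x (F j + ∑ k, t k • G k j) = 0) ∧ (M (t, x)).det ≠ 0 :=
    (Filter.eventually_all_finset Z).2 key
  filter_upwards [key2] with t h1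
  choose! x hx1 hx2 hx3 using h1
  refine ⟨Z.image x, ?_, ?_⟩
  · refine Finset.card_image_of_injOn ?_
    intro z hz w hw hzw
    by_contra hne
    have h2 := hdisj hz hw hne
    exact (Set.disjoint_left.1 h2 (hx1 z hz).1) (by rw [hzw]; exact (hx1 w hw).1)
  · intro y hy
    obtain ⟨z, hz, rfl⟩ := Finset.mem_image.1 hy
    exact ⟨(hx1 z hz).2, hx2 z hz, (hnondeg t (x z)).1 (hx3 z hz)⟩

/-- The affine map with given coefficients. -/
noncomputable def fc {σ τ : Type} [Fintype τ] (c : σ → Option τ → ℂ) : σ → MvPolynomial τ ℂ :=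
  fun q => C (c q none) + ∑ o, C (c q (some o)) * X o

theorem fc_totalDegree {σ τ : Type} [Fintype τ] (c : σ → Option τ → ℂ) (q : σ) :
    (fc c q).totalDegree ≤ 1 := by
  refine (totalDegree_add _ _).trans (max_le ?_ ?_)
  · rw [totalDegree_C]
    exact Nat.zero_le _
  · refine totalDegree_finsetSum_le fun o _ => ?_
    refine (totalDegree_mul _ _).trans ?_
    rw [totalDegree_C, totalDegree_X]

theorem exists_fc {σ τ : Type} [Fintype τ] (f : σ → MvPolynomial τ ℂ)
    (hf : ∀ q, (f q).totalDegree ≤ 1) : ∃ c, fc c = f := by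
  classical
  refine ⟨fun q o => o.elim ((f q).coeff 0) fun o => (f q).coeff (Finsupp.single o 1), ?_⟩
  funext q
  ext s
  rw [fc, coeff_add, coeff_C, coeff_sum]
  simp only [Option.elim_none, Option.elim_some, coeff_C_mul, coeff_X]
  by_cases h0 : s = 0
  · subst h0
    rw [if_pos rfl, Finset.sum_eq_zero, add_zero]
    intro o _
    rw [if_neg, mul_zero]
    intro h
    have := DFunLike.congr_fun h o
    simp at this
  · rw [if_neg (fun h => h0 h.symm), zero_add]
    by_cases h1 : ∃ o, Finsupp.single o 1 = s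
    · obtain ⟨o, rfl⟩ := h1
      rw [Finset.sum_eq_single o]
      · rw [if_pos rfl, mul_one]
      · intro o' _ hne
        rw [if_neg, mul_zero]
        intro h
        exact hne (Finsupp.single_left_injective one_ne_zero h)
      · intro h
        exact absurd (Finset.mem_univ o) h
    · rw [Finset.sum_eq_zero]
      · symm
        by_contra hne
        have h2 : s ∈ (f q).support := mem_support_iff.2 hne
        have h3 := (le_totalDegree h2).trans (hf q)
        have h4 : ∃ o, s o ≠ 0 := by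
          by_contra h
          push Not at h
          exact h0 (Finsupp.ext h)
        obtain ⟨o, ho⟩ := h4
        apply h1
        refine ⟨o, ?_⟩
        have h5 : ∑ o', s o' ≤ 1 := by
          rw [← Finsupp.sum_fintype s (fun _ e => e) (fun _ => rfl)]
          exact h3
        have h6 : s o ≤ 1 := (Finset.single_le_sum (fun _ _ => Nat.zero_le _)
          (Finset.mem_univ o)).trans h5
        ext o'
        by_cases hoo : o' = o
        · subst hoo
          rw [Finsupp.single_eq_same]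
          omega
        · rw [Finsupp.single_eq_of_ne hoo]
          have h7 : s o + s o' ≤ ∑ x, s x := by
            rw [← Finset.sum_pair (f := fun x => s x) (fun h => hoo h.symm)]
            exact Finset.sum_le_sum_of_subset (Finset.subset_univ _)
          omega
      · intro o _
        rw [if_neg (fun h => h1 ⟨o, h⟩), mul_zero]

theorem continuous_coeff_fc {σ τ : Type} [Fintype τ] (P : MvPolynomial σ ℂ) (s : τ →₀ ℕ) :
    Continuous fun c : σ → Option τ → ℂ => coeff s (aeval (fc c) P) := by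
  classical
  induction P using MvPolynomial.induction_on generalizing s with
  | C a =>
    simp only [aeval_C, algebraMap_eq]
    exact continuous_const
  | add p q hp hq =>
    simp only [map_add, coeff_add]
    exact (hp s).add (hq s)
  | mul_X p i hp =>
    simp only [map_mul, aeval_X, coeff_mul]
    refine continuous_finsetSum _ fun x _ => (hp x.1).mul ?_
    simp only [fc, coeff_add, coeff_C, coeff_sum, coeff_C_mul]
    have hc : ∀ o : Option τ, Continuous fun c : σ → Option τ → ℂ => c i o :=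
      fun o => (continuous_apply o).comp (continuous_apply i)
    refine Continuous.add ?_ (continuous_finsetSum _ fun o _ => (hc _).mul continuous_const)
    split_ifs
    · exact hc none
    · exact continuous_const

theorem totalDegree_aeval_fc {σ τ : Type} [Fintype τ] (c : σ → Option τ → ℂ)
    (P : MvPolynomial σ ℂ) : (aeval (fc c) P).totalDegree ≤ P.totalDegree := by
  classical
  rw [aeval_def, eval₂_eq]
  refine totalDegree_finsetSum_le fun s hs => ?_
  refine (totalDegree_mul _ _).trans ?_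
  rw [algebraMap_eq, totalDegree_C, zero_add]
  refine (totalDegree_finsetProd _ _).trans ?_
  refine le_trans (Finset.sum_le_sum fun i _ => ?_) (le_totalDegree hs)
  refine (totalDegree_pow _ _).trans ?_
  calc s i * (fc c i).totalDegree ≤ s i * 1 := Nat.mul_le_mul_left _ (fc_totalDegree c i)
    _ = s i := mul_one _

/-- Nondegenerate critical points persist for small changes of the affine map. -/
theorem persist_ev {σ ι : Type} [Fintype σ] [Fintype ι] (P : MvPolynomial σ ℂ)
    (c₀ : σ → Option (Option ι) → ℂ) (W : Set (Option ι → ℂ)) (hW : IsOpen W)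
    (Z : Finset (Option ι → ℂ)) (hZ : ∀ z ∈ Z, CritPt (aeval (fc c₀) P) z)
    (hZW : ∀ z ∈ Z, z ∈ W) :
    ∀ᶠ c in 𝓝 c₀, ∃ Z' : Finset (Option ι → ℂ), Z'.card = Z.card ∧
      ∀ z ∈ Z', z ∈ W ∧ CritPt (aeval (fc c) P) z := by
  classical
  set D := P.totalDegree with hD
  have hfin : {s : Option ι →₀ ℕ | (s.sum fun _ e => e) ≤ D}.Finite := by
    have : {s : Option ι →₀ ℕ | (s.sum fun _ e => e) ≤ D} ⊆
        ↑(Finset.Iic (Finsupp.equivFunOnFinite.symm fun _ : Option ι => D)) := by
      intro s hs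
      rw [Finset.mem_coe, Finset.mem_Iic]
      intro q
      show s q ≤ D
      refine le_trans ?_ hs
      by_cases hq : q ∈ s.support
      · exact Finset.single_le_sum (f := fun q => s q) (fun _ _ => Nat.zero_le _) hq
      · rw [Finsupp.notMem_support_iff.1 hq]; exact Nat.zero_le _
    exact Set.Finite.subset (Finset.finite_toSet _) this
  set κ : Finset (Option ι →₀ ℕ) := hfin.toFinset with hκ
  have hexp : ∀ Q : MvPolynomial (Option ι) ℂ, Q.totalDegree ≤ D →
      Q = ∑ k : κ, Q.coeff k • monomial (k : Option ι →₀ ℕ) (1 : ℂ) := by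
    intro Q hQ
    rw [Finset.sum_coe_sort κ (fun k => Q.coeff k • monomial k (1 : ℂ))]
    conv_lhs => rw [Q.as_sum]
    rw [Finset.sum_subset (s₂ := κ)]
    · refine Finset.sum_congr rfl fun k _ => ?_
      rw [smul_monomial, smul_eq_mul, mul_one]
    · intro k hk
      rw [hκ, Set.Finite.mem_toFinset]
      exact (le_totalDegree hk).trans hQ
    · intro k _ hk
      rw [notMem_support_iff.1 hk, monomial_zero]
  have h0 := persist_open (κ := κ) rfl (critSys (aeval (fc c₀) P))
    (fun k => critSys (monomial (k : Option ι →₀ ℕ) (1 : ℂ))) W hW Z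
    (fun z hz => (critPt_iff _ z).1 (hZ z hz)) hZW
  have ht : Tendsto (fun c : σ → Option (Option ι) → ℂ => fun k : κ =>
      coeff (k : Option ι →₀ ℕ) (aeval (fc c) P) - coeff (k : Option ι →₀ ℕ) (aeval (fc c₀) P))
      (𝓝 c₀) (𝓝 0) := by
    have hcont : Continuous (fun c : σ → Option (Option ι) → ℂ => fun k : κ =>
      coeff (k : Option ι →₀ ℕ) (aeval (fc c) P) -
        coeff (k : Option ι →₀ ℕ) (aeval (fc c₀) P)) :=
      continuous_pi fun k => Continuous.fun_sub (continuous_coeff_fc P (k : Option ι →₀ ℕ))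
        continuous_const
    refine hcont.tendsto' _ _ ?_
    funext k
    simp
  filter_upwards [ht.eventually h0] with c hc
  obtain ⟨Z', hZ', h1⟩ := hc
  refine ⟨Z', hZ', fun z hz => ⟨(h1 z hz).1, (critPt_iff _ z).2 ?_⟩⟩
  have h2 := (h1 z hz).2
  have e1 : aeval (fc c) P = aeval (fc c₀) P + ∑ k : κ,
      (coeff (k : Option ι →₀ ℕ) (aeval (fc c) P) - coeff (k : Option ι →₀ ℕ) (aeval (fc c₀) P)) •
        monomial (k : Option ι →₀ ℕ) (1 : ℂ) := by
    have h3 := hexp _ (totalDegree_aeval_fc c P)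
    have h4 := hexp _ (totalDegree_aeval_fc c₀ P)
    simp only [sub_smul]
    rw [Finset.sum_sub_distrib, ← h3, ← h4]
    ring
  have e2 : critSys (aeval (fc c) P) = fun j => critSys (aeval (fc c₀) P) j + ∑ k : κ,
      (coeff (k : Option ι →₀ ℕ) (aeval (fc c) P) - coeff (k : Option ι →₀ ℕ) (aeval (fc c₀) P)) •
        critSys (monomial (k : Option ι →₀ ℕ) (1 : ℂ)) j := by
    funext o
    rcases o with _ | v
    · exact e1
    · simp only [critSys, Option.elim_some]
      conv_lhs => rw [e1]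
      rw [map_add, map_sum]
      simp only [Derivation.map_smul]
  rw [e2]
  exact h2

end Pool.RQ
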