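import Mathlib
import Pool.Agent.Helper24.SQ.Defs

/-!
RANK QUERIES, row H (helper33): if the vanishing of the permanent at integer matrices is determined
by the ranks of matrices with polynomial entries, then a nonzero minor is a multiple of the
permanent.
-/

open MvPolynomial Pool.Agent.Helper24.SQ

namespace Pool.RQ

section minors
variable {K : Type*} [Field K] {m n : Type*} [Fintype m] [Fintype n]

theorem exists_rows (A : Matrix m n K) :
    ∃ a : Fin A.rank → m, LinearIndependent K (A.submatrix a id).row := by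
  have h := Submodule.exists_fun_fin_finrank_span_eq K (Set.range A.row)
  rw [← A.rank_eq_finrank_span_row] at h
  obtain ⟨f, hf, -, hi⟩ := h
  choose a ha using hf
  refine ⟨a, ?_⟩
  have : (A.submatrix a id).row = f := funext fun i => ha i
  rwa [this]

theorem exists_minor (A : Matrix m n K) :
    ∃ (a : Fin A.rank → m) (b : Fin A.rank → n), (A.submatrix a b).det ≠ 0 := by
  obtain ⟨a, ha⟩ := exists_rows A
  obtain ⟨b, hb⟩ := exists_rows (A.submatrix a id).transpose
  have h1 : (A.submatrix a id).transpose.rank = A.rank := by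
    rw [Matrix.rank_transpose, ha.rank_matrix, Fintype.card_fin]
  let e : Fin A.rank ≃ Fin (A.submatrix a id).transpose.rank := finCongr h1.symm
  refine ⟨a, b ∘ e, ?_⟩
  have h2 : LinearIndependent K ((A.submatrix a (b ∘ e)).transpose).row := hb.comp e e.injective
  have h3 := Matrix.linearIndependent_rows_iff_isUnit.1 h2
  rw [Matrix.isUnit_transpose, Matrix.isUnit_iff_isUnit_det] at h3
  exact h3.ne_zero

theorem rank_ge (A : Matrix m n K) {p : ℕ} (a : Fin p → m) (b : Fin p → n)
    (h : (A.submatrix a b).det ≠ 0) : p ≤ A.rank := by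
  have h1 : IsUnit (A.submatrix a b) := (Matrix.isUnit_iff_isUnit_det _).2 (IsUnit.mk0 _ h)
  have h2 := Matrix.rank_of_isUnit _ h1
  rw [Fintype.card_fin] at h2
  rw [← h2]
  exact Matrix.rank_submatrix_le A a b

end minors

/-- the generic rank: a nonzero minor whose nonvanishing fixes the rank of the values -/
theorem generic_rank {σ : Type*} {m : ℕ} (A : Matrix (Fin m) (Fin m) (MvPolynomial σ ℂ)) :
    ∃ (r : ℕ) (a b : Fin r → Fin m), (A.submatrix a b).det ≠ 0 ∧
      ∀ x : σ → ℂ, eval x (A.submatrix a b).det ≠ 0 → (A.map (eval x)).rank = r := by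
  classical
  let F := FractionRing (MvPolynomial σ ℂ)
  have hinj : Function.Injective (algebraMap (MvPolynomial σ ℂ) F) :=
    IsFractionRing.injective _ _
  have hdet : ∀ {p : ℕ} (a b : Fin p → Fin m),
      ((A.map (algebraMap _ F)).submatrix a b).det = algebraMap _ F (A.submatrix a b).det := by
    intro p a b
    rw [RingHom.map_det]
    rfl
  obtain ⟨a, b, hab⟩ := exists_minor (A.map (algebraMap (MvPolynomial σ ℂ) F))
  refine ⟨_, a, b, ?_, ?_⟩
  · intro h
    apply hab
    rw [hdet, h, map_zero]
  · intro x hx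
    apply le_antisymm
    · obtain ⟨a', b', h'⟩ := exists_minor (A.map (eval x))
      refine rank_ge (A.map (algebraMap (MvPolynomial σ ℂ) F)) a' b' ?_
      rw [hdet]
      intro h
      have h2 : (A.submatrix a' b').det = 0 := hinj (by rw [h, map_zero])
      apply h'
      have h3 : ((A.map (eval x)).submatrix a' b').det = eval x (A.submatrix a' b').det := by
        rw [RingHom.map_det]
        rfl
      rw [h3, h2, map_zero]
    · refine rank_ge (A.map (eval x)) a b ?_
      have h3 : ((A.map (eval x)).submatrix a b).det = eval x (A.submatrix a b).det := by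
        rw [RingHom.map_det]
        rfl
      rw [h3]
      exact hx

/-- a nonzero polynomial does not vanish at some integer point -/
theorem exists_int_point {σ : Type*} (G : MvPolynomial σ ℂ) (hG : G ≠ 0) :
    ∃ X : σ → ℤ, eval (fun q => (X q : ℂ)) G ≠ 0 := by
  by_contra hcon
  push Not at hcon
  apply hG
  refine MvPolynomial.funext_set (fun _ => Set.range (fun z : ℤ => (z : ℂ)))
    (fun _ => Set.infinite_range_of_injective Int.cast_injective) fun x hx => ?_
  have h1 : ∀ q, ∃ z : ℤ, (z : ℂ) = x q := fun q => hx q (Set.mem_univ q)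
  choose X hX using h1
  rw [map_zero, ← hcon X]
  congr 1
  exact congrArg _ (funext fun q => (hX q).symm)

theorem eval_permPoly (n : ℕ) (X : Matrix (Fin n) (Fin n) ℤ) :
    eval (fun q : Fin n × Fin n => (X q.1 q.2 : ℂ)) (permPoly n) = (X.permanent : ℂ) := by
  simp [permPoly, Matrix.permanent]

/-- ROW H with the prime property and row B as hypotheses. -/
theorem ranks_of {n m k : ℕ} (hp : Prime (permPoly n))
    (hB : ∀ G : MvPolynomial (Fin n × Fin n) ℂ, ¬ permPoly n ∣ G →
      ∃ X : Matrix (Fin n) (Fin n) ℤ, X.permanent = 0 ∧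
        eval (fun q => (X q.1 q.2 : ℂ)) G ≠ 0)
    (A : Fin k → Matrix (Fin m) (Fin m) (MvPolynomial (Fin n × Fin n) ℂ))
    (h : ∀ X Y : Matrix (Fin n) (Fin n) ℤ,
      (∀ i, ((A i).map (eval fun q => (X q.1 q.2 : ℂ))).rank =
        ((A i).map (eval fun q => (Y q.1 q.2 : ℂ))).rank) →
      (X.permanent = 0 ↔ Y.permanent = 0)) :
    ∃ (i : Fin k) (j : ℕ) (r c : Fin j → Fin m), ((A i).submatrix r c).det ≠ 0 ∧
      permPoly n ∣ ((A i).submatrix r c).det := by
  classical
  by_contra hcon
  push Not at hcon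
  choose r a b hab hev using fun i => generic_rank (A i)
  set G := ∏ i, ((A i).submatrix (a i) (b i)).det with hGdef
  have hG : ¬ permPoly n ∣ G := by
    intro hd
    obtain ⟨i, -, hi⟩ := hp.exists_mem_finset_dvd hd
    exact hcon i (r i) (a i) (b i) (hab i) hi
  have hG0 : G ≠ 0 := fun h0 => hG (h0 ▸ dvd_zero _)
  obtain ⟨X, hX, hXG⟩ := hB G hG
  obtain ⟨Y', hY'⟩ := exists_int_point (permPoly n * G) (mul_ne_zero hp.ne_zero hG0)
  set Y : Matrix (Fin n) (Fin n) ℤ := Matrix.of fun i j => Y' (i, j) with hYdef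
  have hYY : (fun q : Fin n × Fin n => (Y' q : ℂ)) = fun q => (Y q.1 q.2 : ℂ) := rfl
  rw [hYY, map_mul] at hY'
  have hYp := left_ne_zero_of_mul hY'
  have hYG := right_ne_zero_of_mul hY'
  rw [eval_permPoly] at hYp
  have hYp' : Y.permanent ≠ 0 := by exact_mod_cast hYp
  rw [hGdef, map_prod] at hXG hYG
  have hX1 : ∀ i, eval (fun q => (X q.1 q.2 : ℂ)) ((A i).submatrix (a i) (b i)).det ≠ 0 :=
    fun i => Finset.prod_ne_zero_iff.1 hXG i (Finset.mem_univ i)
  have hY1 : ∀ i, eval (fun q => (Y q.1 q.2 : ℂ)) ((A i).submatrix (a i) (b i)).det ≠ 0 :=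
    fun i => Finset.prod_ne_zero_iff.1 hYG i (Finset.mem_univ i)
  have := (h X Y fun i => by rw [hev i _ (hX1 i), hev i _ (hY1 i)]).1 hX
  exact hYp' this

end Pool.RQ
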